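import Pool.Agent.TH970.Kr.Shell

set_option autoImplicit false

/-!
# The maximal estimate in three dimensions
-/

open MeasureTheory Set Filter Topology ENNReal NNReal Metric

namespace Pool.Agent.TH970.Kr

open Pool.Agent.H742R2.Kk Pool.Agent.W767.Kc Pool.Agent.W767.Sd

/-- The maximal estimate for `F` in terms of `G`, with a measurable majorant. -/
def PM (m : ℕ) (ρ : ℝ) (A : ℝ≥0∞) (F G : E (m + 1) → ℝ≥0∞) : Prop :=
  ∃ M : E (m + 1) → ℝ≥0∞, Measurable M ∧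
    (∀ e b, ‖e‖ = 1 → ((ENNReal.ofReal ρ ^ m)⁻¹ * ∫⁻ y in cyl ρ 1 e b, F y) ^ (m + 1) ≤ M e) ∧
    ∫⁻ x in closedBall (0 : E (m + 1)) 1, M (‖x‖⁻¹ • x) ≤ A * ∫⁻ y, G y ^ (m + 1)

theorem dyad {δ : ℝ} (K : ℕ) {x : ℝ} (h1 : δ ≤ x) (h2 : x ≤ 2 ^ (K + 1) * δ) :
    ∃ j, j ≤ K ∧ 2 ^ j * δ ≤ x ∧ x ≤ 2 * (2 ^ j * δ) := by
  induction K with
  | zero => exact ⟨0, le_rfl, by simpa using h1, by simpa using h2⟩
  | succ K ih =>
    rcases le_or_gt x (2 ^ (K + 1) * δ) with h | h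
    · obtain ⟨j, hj, hj2⟩ := ih h
      exact ⟨j, by omega, hj2⟩
    · refine ⟨K + 1, le_rfl, h.le, ?_⟩
      rw [pow_succ] at h2
      linarith

/-- The shells. -/
def U (δ : ℝ) : ℕ → Set (E 3)
  | 0 => closedBall 0 δ
  | (k + 1) => {y | 2 ^ k * δ ≤ ‖y‖ ∧ ‖y‖ ≤ 2 * (2 ^ k * δ)}

theorem isClosed_U (δ : ℝ) (k : ℕ) : IsClosed (U δ k) := by
  cases k with
  | zero => exact isClosed_closedBall
  | succ k =>
    have c1 : Continuous (fun y : E 3 => ‖y‖) := by fun_prop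
    exact (isClosed_le continuous_const c1).inter (isClosed_le c1 continuous_const)

theorem U_cover {δ : ℝ} (hδ : 0 < δ) (y : E 3) : ∃ k, y ∈ U δ k := by
  rcases le_or_gt ‖y‖ δ with h | h
  · exact ⟨0, by simpa [U] using h⟩
  · obtain ⟨K, hK⟩ := pow_unbounded_of_one_lt (‖y‖ / δ) (by norm_num : (1:ℝ) < 2)
    have h2 : ‖y‖ ≤ 2 ^ (K + 1) * δ := by
      rw [div_lt_iff₀ hδ] at hK
      have : (2:ℝ) ^ K * δ ≤ 2 ^ (K + 1) * δ := by
        gcongr
        · norm_num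
        · omega
      linarith
    obtain ⟨j, -, hj⟩ := dyad K h.le h2
    exact ⟨j + 1, hj⟩

/-- A common constant. -/
noncomputable def C1 : ℝ := 36864 * V2 * 36700160

theorem C1_nonneg : 0 ≤ C1 := by
  have := V2_nonneg
  unfold C1
  positivity

theorem one_shell {δ : ℝ} (hδ : 0 < δ) {I0 : ℕ} (hI0 : 1 ≤ 2 ^ I0 * δ) (k : ℕ)
    {F G : E 3 → ℝ≥0∞} (hF : Measurable F) (hG : Measurable G) (hFG : RadE F G) :
    ∃ M : E 3 → ℝ≥0∞, Measurable M ∧
      (∀ e b : E 3, ‖e‖ = 1 →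
        ((ENNReal.ofReal δ ^ 2)⁻¹ * ∫⁻ y in cyl δ 1 e b ∩ U δ (k + 1), F y) ^ 3 ≤ M e) ∧
      ∫⁻ x in closedBall (0 : E 3) 1, M (‖x‖⁻¹ • x) ≤
        ENNReal.ofReal (4 * C1 * ((1 / 2) ^ (k - I0) * (k + 2) ^ 2)) * ∫⁻ y, G y ^ 3 := by
  set r : ℝ := 2 ^ k * δ with hr
  have hr0 : 0 < r := by positivity
  have hsh : ∀ j : ℕ, ∃ M : E 3 → ℝ≥0∞, Measurable M ∧
      (∀ e b : E 3, ‖e‖ = 1 → 2 ^ j * δ ≤ ‖pr e b‖ + δ → ‖pr e b‖ + δ ≤ 2 * (2 ^ j * δ) →
        ((ENNReal.ofReal δ ^ 2)⁻¹ *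
          ∫⁻ y in cyl δ 1 e b ∩ {y | r ≤ ‖y‖ ∧ ‖y‖ ≤ 2 * r}, F y) ^ 3 ≤ M e) ∧
      ∫⁻ x in closedBall (0 : E 3) 1, M (‖x‖⁻¹ • x) ≤
        ENNReal.ofReal (36864 * V2 * 36700160 * (min (4 * r) 2 / r) *
          Real.log (1 + r / (2 * δ))) * ∫⁻ y, G y ^ 3 := by
    intro j
    apply shell hδ hr0 _ hF hG hFG
    have : (1:ℝ) ≤ 2 ^ j := one_le_pow₀ (by norm_num)
    nlinarith
  choose M hMm hM hMi using hsh
  have hmd : Measurable (fun x : E 3 => ‖x‖⁻¹ • x) := measurable_norm.inv.smul measurable_id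
  refine ⟨fun e => ∑ j ∈ Finset.range (k + 2), M j e,
    Finset.measurable_sum _ (fun j _ => hMm j), ?_, ?_⟩
  · intro e b he
    change ((ENNReal.ofReal δ ^ 2)⁻¹ *
          ∫⁻ y in cyl δ 1 e b ∩ {y | r ≤ ‖y‖ ∧ ‖y‖ ≤ 2 * r}, F y) ^ 3 ≤ _
    rcases (cyl δ 1 e b ∩ {y : E 3 | r ≤ ‖y‖ ∧ ‖y‖ ≤ 2 * r}).eq_empty_or_nonempty with h0 | ⟨y, hy⟩
    · rw [h0]; simp
    · have h1 : ‖pr e b‖ + δ ≤ 2 ^ (k + 1 + 1) * δ := by
        have h2 := mem_cyl_pr hy.1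
        have h3 : ‖pr e b‖ ≤ ‖pr e y - pr e b‖ + ‖pr e y‖ := by
          calc ‖pr e b‖ = ‖pr e y - (pr e y - pr e b)‖ := by congr 1; abel
            _ ≤ ‖pr e y‖ + ‖pr e y - pr e b‖ := norm_sub_le _ _
            _ = _ := add_comm _ _
        have h4 : ‖pr e y‖ ≤ ‖y‖ := perp_le he
        have h5 : ‖y‖ ≤ 2 * r := hy.2.2
        have h6 : (1:ℝ) ≤ 2 ^ k := one_le_pow₀ (by norm_num)
        have h7 : (2:ℝ) ^ (k + 1 + 1) * δ = 4 * r := by rw [hr]; ring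
        have h8 : δ ≤ r := by rw [hr]; nlinarith
        rw [h7]
        linarith
      obtain ⟨j, hj, hj1, hj2⟩ := dyad (k + 1) (x := ‖pr e b‖ + δ) (δ := δ)
        (by linarith [norm_nonneg (pr e b)]) h1
      refine (hM j e b he hj1 hj2).trans ?_
      exact Finset.single_le_sum (f := fun j => M j e) (fun _ _ => zero_le)
        (Finset.mem_range.2 (by omega))
  · have hlog : Real.log (1 + r / (2 * δ)) ≤ k + 1 := by
      have h6 : (1:ℝ) ≤ 2 ^ k := one_le_pow₀ (by norm_num)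
      have h1 : 1 + r / (2 * δ) ≤ 2 ^ (k + 1) := by
        have : r / (2 * δ) = 2 ^ k / 2 := by rw [hr]; field_simp
        rw [this, pow_succ]
        linarith
      calc Real.log (1 + r / (2 * δ)) ≤ Real.log (2 ^ (k + 1)) :=
            Real.log_le_log (by positivity) h1
        _ = (k + 1) * Real.log 2 := by rw [Real.log_pow]; push_cast; ring
        _ ≤ (k + 1) * 1 := by
            gcongr
            have := Real.log_two_lt_d9
            linarith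
        _ = _ := mul_one _
    have hlog0 : 0 ≤ Real.log (1 + r / (2 * δ)) := Real.log_nonneg (by
      have : 0 ≤ r / (2 * δ) := by positivity
      linarith)
    have hmin : min (4 * r) 2 / r ≤ 4 * (1 / 2) ^ (k - I0) := by
      rw [div_le_iff₀ hr0]
      rcases le_or_gt I0 k with h | h
      · have h1 : (2:ℝ) ^ (k - I0) ≤ r := by
          have e1 : (2:ℝ) ^ k = 2 ^ (k - I0) * 2 ^ I0 := by
            rw [← pow_add]; congr 1; omega
          rw [hr, e1, mul_assoc]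
          have : (0:ℝ) ≤ 2 ^ (k - I0) := by positivity
          nlinarith
        have h2 : (1:ℝ) ≤ (1 / 2) ^ (k - I0) * r := by
          calc (1:ℝ) = (1 / 2) ^ (k - I0) * 2 ^ (k - I0) := by
                rw [← mul_pow]; norm_num
            _ ≤ _ := by gcongr
        calc min (4 * r) 2 ≤ 2 := min_le_right _ _
          _ ≤ _ := by linarith
      · have h1 : k - I0 = 0 := by omega
        rw [h1, pow_zero, mul_one]
        exact min_le_left _ _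
    have hMd : ∀ j ∈ Finset.range (k + 2), Measurable (fun x : E 3 => M j (‖x‖⁻¹ • x)) :=
      fun j _ => (hMm j).comp hmd
    rw [lintegral_finsetSum _ hMd]
    calc ∑ j ∈ Finset.range (k + 2), ∫⁻ x in closedBall (0 : E 3) 1, M j (‖x‖⁻¹ • x)
        ≤ ∑ j ∈ Finset.range (k + 2), ENNReal.ofReal (C1 * (4 * (1 / 2) ^ (k - I0)) *
            (k + 1)) * ∫⁻ y, G y ^ 3 := by
          apply Finset.sum_le_sum
          intro j _
          refine (hMi j).trans ?_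
          refine mul_le_mul' (ENNReal.ofReal_le_ofReal ?_) le_rfl
          have := C1_nonneg
          change C1 * (min (4 * r) 2 / r) * Real.log (1 + r / (2 * δ)) ≤ _
          gcongr
      _ = ENNReal.ofReal ((k:ℝ) + 2) * (ENNReal.ofReal (C1 * (4 * (1 / 2) ^ (k - I0)) *
            (k + 1)) * ∫⁻ y, G y ^ 3) := by
          rw [Finset.sum_const, Finset.card_range, nsmul_eq_mul]
          congr 1
          rw [← ENNReal.ofReal_natCast]
          congr 1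
          push_cast
          ring
      _ ≤ _ := by
          rw [← mul_assoc, ← ENNReal.ofReal_mul (by positivity)]
          refine mul_le_mul' (ENNReal.ofReal_le_ofReal ?_) le_rfl
          have h1 := C1_nonneg
          have h2 : (0:ℝ) ≤ (1 / 2) ^ (k - I0) := by positivity
          have h3 : ((k:ℝ) + 2) * (C1 * (4 * (1 / 2) ^ (k - I0)) * (k + 1)) =
              4 * C1 * ((1 / 2) ^ (k - I0) * ((k + 2) * (k + 1))) := by ring
          rw [h3]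
          have h4 : ((k:ℝ) + 2) * (k + 1) ≤ (k + 2) ^ 2 := by nlinarith [show (0:ℝ) ≤ k from k.cast_nonneg]
          gcongr

/-- The volume of the unit ball. -/
noncomputable def V3 : ℝ := (volume (closedBall (0 : E 3) 1)).toReal

theorem V3_eq : volume (closedBall (0 : E 3) 1) = ENNReal.ofReal V3 :=
  (ENNReal.ofReal_toReal measure_closedBall_lt_top.ne).symm

theorem V3_nonneg : 0 ≤ V3 := ENNReal.toReal_nonneg

theorem core_shell {δ : ℝ} (hδ : 0 < δ)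
    {F G : E 3 → ℝ≥0∞} (hF : Measurable F) (hFG : RadE F G) :
    ∃ M : E 3 → ℝ≥0∞, Measurable M ∧
      (∀ e b : E 3, ‖e‖ = 1 →
        ((ENNReal.ofReal δ ^ 2)⁻¹ * ∫⁻ y in cyl δ 1 e b ∩ U δ 0, F y) ^ 3 ≤ M e) ∧
      ∫⁻ x in closedBall (0 : E 3) 1, M (‖x‖⁻¹ • x) ≤
        ENNReal.ofReal (V3 ^ 3) * ∫⁻ y, G y ^ 3 := by
  have hV := V3_nonneg
  refine ⟨fun _ => ENNReal.ofReal (V3 ^ 2) * ∫⁻ y, G y ^ 3, measurable_const, ?_, ?_⟩
  · intro e b _
    have hvol : volume (closedBall (0 : E 3) δ) = ENNReal.ofReal δ ^ 3 * ENNReal.ofReal V3 := by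
      rw [← V3_eq, Measure.addHaar_closedBall' volume (0 : E 3) hδ.le, ENNReal.ofReal_pow hδ.le]
      simp
    set P : ℝ≥0∞ := ENNReal.ofReal δ with hP
    have hP0 : P ≠ 0 := by simpa [hP] using hδ
    have hPt : P ≠ ∞ := ENNReal.ofReal_ne_top
    have h1 : (∫⁻ y in closedBall (0 : E 3) δ, F y) ^ 3 ≤ (P ^ 3 * ENNReal.ofReal V3) ^ 2 *
        ∫⁻ y, G y ^ 3 := by
      have h := holder_pow (volume.restrict (closedBall (0 : E 3) δ)) (g := F) hF.aemeasurable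
        (p := 3) (by norm_num)
      have e1 : (3:ℝ) - 1 = ((2:ℕ):ℝ) := by norm_num
      have e2 : (3:ℝ) = ((3:ℕ):ℝ) := by norm_num
      rw [e1, e2, Measure.restrict_apply_univ, hvol] at h
      simp only [ENNReal.rpow_natCast] at h
      refine h.trans (mul_le_mul' le_rfl ?_)
      refine (setLIntegral_le_lintegral _ _).trans (lintegral_mono fun y => ?_)
      simp only
      gcongr
      simpa using hFG y 1 (by norm_num)
    calc ((P ^ 2)⁻¹ * ∫⁻ y in cyl δ 1 e b ∩ U δ 0, F y) ^ 3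
        ≤ ((P ^ 2)⁻¹ * ∫⁻ y in closedBall (0 : E 3) δ, F y) ^ 3 := by
          gcongr
          exact inter_subset_right
      _ = ((P ^ 2)⁻¹) ^ 3 * (∫⁻ y in closedBall (0 : E 3) δ, F y) ^ 3 := mul_pow _ _ _
      _ ≤ ((P ^ 2)⁻¹) ^ 3 * ((P ^ 3 * ENNReal.ofReal V3) ^ 2 * ∫⁻ y, G y ^ 3) := by gcongr
      _ = (((P ^ 2)⁻¹) ^ 3 * (P ^ 2) ^ 3) * (ENNReal.ofReal V3 ^ 2 * ∫⁻ y, G y ^ 3) := by ring
      _ = _ := by
          rw [← mul_pow, ENNReal.inv_mul_cancel (pow_ne_zero _ hP0) (ENNReal.pow_ne_top hPt),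
            one_pow, one_mul, ENNReal.ofReal_pow hV]
  · rw [lintegral_const, Measure.restrict_apply_univ, V3_eq]
    apply le_of_eq
    rw [mul_comm, ← mul_assoc, ← ENNReal.ofReal_mul hV]
    congr 2
    ring

/-- The weights of the shells. -/
noncomputable def aw (I0 : ℕ) : ℕ → ℝ
  | 0 => V3 ^ 3
  | (k + 1) => 4 * C1 * ((1 / 2) ^ (k - I0) * (k + 2) ^ 2)

theorem summ : Summable (fun i : ℕ => (1 / 2 : ℝ) ^ i * (i + 1) ^ 2) := by
  have h1 := summable_pow_mul_geometric_of_norm_lt_one 2 (r := (1 / 2 : ℝ)) (by norm_num)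
  have h2 := ((_root_.summable_nat_add_iff 1).2 h1).mul_left 2
  refine h2.congr fun i => ?_
  push_cast
  rw [pow_succ (1 / 2 : ℝ) i]
  ring

/-- The sum of a series. -/
noncomputable def c2 : ℝ := ∑' i : ℕ, (1 / 2 : ℝ) ^ i * (i + 1) ^ 2

theorem c2_nonneg : 0 ≤ c2 := tsum_nonneg fun i => by positivity

theorem sum_aw (I0 : ℕ) : ∑' k, ENNReal.ofReal (aw I0 k) ≤
    ENNReal.ofReal (V3 ^ 3 + 4 * C1 * (1 + c2) * (I0 + 2) ^ 3) := by
  have hC := C1_nonneg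
  have hc := c2_nonneg
  have hV := V3_nonneg
  have h0 : ∑' k, ENNReal.ofReal (aw I0 k) = ENNReal.ofReal (V3 ^ 3) +
      ∑' k : ℕ, ENNReal.ofReal (4 * C1 * ((1 / 2) ^ (k - I0) * (k + 2) ^ 2)) := by
    rw [tsum_eq_zero_add' ENNReal.summable]
    rfl
  have h1 : ∑' k : ℕ, ENNReal.ofReal (4 * C1 * ((1 / 2) ^ (k - I0) * ((k:ℝ) + 2) ^ 2)) =
      ∑ k ∈ Finset.range I0, ENNReal.ofReal (4 * C1 * ((1 / 2) ^ (k - I0) * ((k:ℝ) + 2) ^ 2)) +
      ∑' k : ℕ, ENNReal.ofReal (4 * C1 * ((1 / 2) ^ (k + I0 - I0) * (((k + I0 : ℕ) : ℝ) + 2) ^ 2)) :=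
    (Summable.sum_add_tsum_nat_add' ENNReal.summable).symm
  have h2 : ∑ k ∈ Finset.range I0, ENNReal.ofReal (4 * C1 * ((1 / 2) ^ (k - I0) * ((k:ℝ) + 2) ^ 2))
      ≤ ENNReal.ofReal (4 * C1 * (I0 + 2) ^ 3) := by
    calc ∑ k ∈ Finset.range I0, ENNReal.ofReal (4 * C1 * ((1 / 2) ^ (k - I0) * ((k:ℝ) + 2) ^ 2))
        ≤ ∑ k ∈ Finset.range I0, ENNReal.ofReal (4 * C1 * ((I0:ℝ) + 2) ^ 2) := by
          apply Finset.sum_le_sum
          intro k hk
          rw [Finset.mem_range] at hk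
          apply ENNReal.ofReal_le_ofReal
          have e1 : k - I0 = 0 := by omega
          have e2 : (k:ℝ) ≤ I0 := by exact_mod_cast hk.le
          rw [e1, pow_zero, one_mul]
          gcongr
      _ = ENNReal.ofReal (I0:ℝ) * ENNReal.ofReal (4 * C1 * ((I0:ℝ) + 2) ^ 2) := by
          rw [Finset.sum_const, Finset.card_range, nsmul_eq_mul]
          simp
      _ ≤ _ := by
          rw [← ENNReal.ofReal_mul (by positivity)]
          apply ENNReal.ofReal_le_ofReal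
          have e3 : 4 * C1 * ((I0:ℝ) + 2) ^ 3 = ((I0:ℝ) + 2) * (4 * C1 * ((I0:ℝ) + 2) ^ 2) := by ring
          rw [e3]
          gcongr
          linarith
  have h3 : ∑' k : ℕ, ENNReal.ofReal (4 * C1 * ((1 / 2) ^ (k + I0 - I0) *
      (((k + I0 : ℕ) : ℝ) + 2) ^ 2)) ≤ ENNReal.ofReal (4 * C1 * (I0 + 2) ^ 2 * c2) := by
    have e1 : ENNReal.ofReal (4 * C1 * ((I0:ℝ) + 2) ^ 2 * c2) =
        ∑' k : ℕ, ENNReal.ofReal (4 * C1 * ((I0:ℝ) + 2) ^ 2 * ((1 / 2 : ℝ) ^ k * (k + 1) ^ 2)) := by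
      rw [← ENNReal.ofReal_tsum_of_nonneg (fun k => by positivity) (summ.mul_left _),
        _root_.tsum_mul_left, c2]
    rw [e1]
    apply ENNReal.tsum_le_tsum
    intro k
    apply ENNReal.ofReal_le_ofReal
    rw [Nat.add_sub_cancel]
    push_cast
    have hk : (0:ℝ) ≤ k := k.cast_nonneg
    have hI : (0:ℝ) ≤ I0 := I0.cast_nonneg
    have e2 : (k:ℝ) + I0 + 2 ≤ (I0 + 2) * (k + 1) := by nlinarith
    calc 4 * C1 * ((1 / 2) ^ k * ((k:ℝ) + I0 + 2) ^ 2) ≤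
        4 * C1 * ((1 / 2) ^ k * ((I0 + 2) * (k + 1)) ^ 2) := by gcongr
      _ = _ := by ring
  rw [h0, h1]
  calc _ ≤ ENNReal.ofReal (V3 ^ 3) + (ENNReal.ofReal (4 * C1 * (I0 + 2) ^ 3) +
        ENNReal.ofReal (4 * C1 * (I0 + 2) ^ 2 * c2)) := by gcongr
    _ ≤ _ := by
        rw [← ENNReal.ofReal_add (by positivity) (by positivity),
          ← ENNReal.ofReal_add (by positivity) (by positivity)]
        apply ENNReal.ofReal_le_ofReal
        have hI : (0:ℝ) ≤ I0 := I0.cast_nonneg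
        have e2 : ((I0:ℝ) + 2) ^ 2 ≤ (I0 + 2) ^ 3 := by
          apply pow_le_pow_right₀ _ (by norm_num)
          linarith
        have e3 : 4 * C1 * ((I0:ℝ) + 2) ^ 2 * c2 ≤ 4 * C1 * ((I0:ℝ) + 2) ^ 3 * c2 := by gcongr
        linarith

/-- The maximal estimate in three dimensions. -/
theorem base3_aux {δ : ℝ} (hδ : 0 < δ) (hδ1 : δ ≤ 1) {I0 : ℕ} (hI0 : 1 ≤ 2 ^ I0 * δ)
    {F G : E 3 → ℝ≥0∞} (hF : Measurable F) (hG : Measurable G) (hFG : RadE F G) :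
    PM 2 δ (ENNReal.ofReal (((I0:ℝ) + 4) ^ 2 * (V3 ^ 3 + 4 * C1 * (1 + c2) * (I0 + 2) ^ 3))) F G := by
  have hsh : ∀ k : ℕ, ∃ M : E 3 → ℝ≥0∞, Measurable M ∧
      (∀ e b : E 3, ‖e‖ = 1 →
        ((ENNReal.ofReal δ ^ 2)⁻¹ * ∫⁻ y in cyl δ 1 e b ∩ U δ k, F y) ^ 3 ≤ M e) ∧
      ∫⁻ x in closedBall (0 : E 3) 1, M (‖x‖⁻¹ • x) ≤
        ENNReal.ofReal (aw I0 k) * ∫⁻ y, G y ^ 3 := by
    intro k
    cases k with
    | zero => exact core_shell hδ hF hFG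
    | succ k => exact one_shell hδ hI0 k hF hG hFG
  choose M hMm hM hMi using hsh
  have hmd : Measurable (fun x : E 3 => ‖x‖⁻¹ • x) := measurable_norm.inv.smul measurable_id
  have hC := C1_nonneg
  have hc := c2_nonneg
  have hV := V3_nonneg
  refine ⟨fun e => ((I0 + 4 : ℕ) : ℝ≥0∞) ^ 2 * ∑' k, M k e,
    (Measurable.tsum hMm).const_mul _, ?_, ?_⟩
  · intro e b he
    set T := cyl δ 1 e b with hT
    have hTm : MeasurableSet T := (isClosed_cyl δ 1 e b).measurableSet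
    have hdiam : ∀ y ∈ T, ∀ y' ∈ T, ‖y'‖ ≤ ‖y‖ + 4 := by
      intro y hy y' hy'
      obtain ⟨h1, h2⟩ := cyl_diff hy' hy
      have h3 : ‖y' - y‖ ≤ 4 := by
        calc ‖y' - y‖ = ‖((y' - y) - (inner ℝ (y' - y) e : ℝ) • e) +
              (inner ℝ (y' - y) e : ℝ) • e‖ := by rw [sub_add_cancel]
          _ ≤ ‖(y' - y) - (inner ℝ (y' - y) e : ℝ) • e‖ + ‖(inner ℝ (y' - y) e : ℝ) • e‖ :=
              norm_add_le _ _
          _ ≤ 2 * δ + 2 * 1 := by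
              rw [norm_smul, he, mul_one, Real.norm_eq_abs]
              gcongr
          _ ≤ 4 := by linarith
      calc ‖y'‖ = ‖(y' - y) + y‖ := by rw [sub_add_cancel]
        _ ≤ ‖y' - y‖ + ‖y‖ := norm_add_le _ _
        _ ≤ _ := by linarith
    have hJ : ∃ J : Finset ℕ, J.card ≤ I0 + 4 ∧ ∀ k, (T ∩ U δ k).Nonempty → k ∈ J := by
      classical
      by_cases hex : ∃ k, I0 ≤ k ∧ (T ∩ U δ (k + 1)).Nonempty
      · set k0 := Nat.find hex with hk0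
        obtain ⟨h1, y, hyT, hyU⟩ := Nat.find_spec hex
        rw [← hk0] at h1 hyU
        refine ⟨Finset.range (I0 + 1) ∪ Finset.Icc (k0 + 1) (k0 + 3), ?_, ?_⟩
        · refine (Finset.card_union_le _ _).trans ?_
          rw [Finset.card_range, Nat.card_Icc]
          omega
        · intro k hk
          rw [Finset.mem_union, Finset.mem_range, Finset.mem_Icc]
          by_cases hk1 : k < I0 + 1
          · exact Or.inl hk1
          · right
            obtain ⟨l, rfl⟩ : ∃ l, k = l + 1 := ⟨k - 1, by omega⟩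
            have h2 : k0 ≤ l := Nat.find_min' hex ⟨by omega, hk⟩
            refine ⟨by omega, ?_⟩
            obtain ⟨y', hy'T, hy'U⟩ := hk
            have h3 : (2:ℝ) ^ l * δ ≤ ‖y'‖ := hy'U.1
            have h4 : ‖y‖ ≤ 2 * (2 ^ k0 * δ) := hyU.2
            have h5 := hdiam y hyT y' hy'T
            have h6 : 1 ≤ (2:ℝ) ^ k0 * δ := by
              have : (2:ℝ) ^ I0 * δ ≤ 2 ^ k0 * δ := by
                gcongr
                norm_num
              linarith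
            have h7 : (2:ℝ) ^ l * δ ≤ 6 * (2 ^ k0 * δ) := by linarith
            by_contra hcon
            have h8 : k0 + 3 ≤ l := by omega
            have h9 : (2:ℝ) ^ (k0 + 3) * δ ≤ 2 ^ l * δ := by
              gcongr
              norm_num
            have h10 : (2:ℝ) ^ (k0 + 3) * δ = 8 * (2 ^ k0 * δ) := by ring
            linarith
      · refine ⟨Finset.range (I0 + 1), ?_, ?_⟩
        · rw [Finset.card_range]; omega
        · intro k hk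
          rw [Finset.mem_range]
          by_contra hcon
          obtain ⟨l, rfl⟩ : ∃ l, k = l + 1 := ⟨k - 1, by omega⟩
          exact hex ⟨l, by omega, hk⟩
    obtain ⟨J, hJc, hJ⟩ := hJ
    have hsm : ∀ k, MeasurableSet (T ∩ U δ k) := fun k => hTm.inter (isClosed_U δ k).measurableSet
    have h1 : ∫⁻ y in T, F y ≤ ∑ k ∈ J, ∫⁻ y in T ∩ U δ k, F y := by
      rw [← lintegral_indicator hTm]
      simp_rw [← lintegral_indicator (hsm _)]
      rw [← lintegral_finsetSum _ (fun i _ => hF.indicator (hsm i))]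
      apply lintegral_mono
      intro y
      by_cases hy : y ∈ T
      · obtain ⟨k, hk⟩ := U_cover hδ y
        have hmem : y ∈ T ∩ U δ k := ⟨hy, hk⟩
        rw [indicator_of_mem hy]
        calc F y = (T ∩ U δ k).indicator F y := (indicator_of_mem hmem _).symm
          _ ≤ _ := Finset.single_le_sum (f := fun k => (T ∩ U δ k).indicator F y)
              (fun _ _ => zero_le) (hJ k ⟨y, hmem⟩)
      · rw [indicator_of_notMem hy]; exact zero_le
    calc ((ENNReal.ofReal δ ^ 2)⁻¹ * ∫⁻ y in T, F y) ^ (2 + 1)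
        ≤ (∑ k ∈ J, (ENNReal.ofReal δ ^ 2)⁻¹ * ∫⁻ y in T ∩ U δ k, F y) ^ 3 := by
          rw [← Finset.mul_sum]
          gcongr
      _ ≤ (J.card : ℝ≥0∞) ^ (3 - 1) * ∑ k ∈ J, ((ENNReal.ofReal δ ^ 2)⁻¹ *
            ∫⁻ y in T ∩ U δ k, F y) ^ 3 := sum_pow_le _ _ (by norm_num)
      _ ≤ ((I0 + 4 : ℕ) : ℝ≥0∞) ^ 2 * ∑ k ∈ J, M k e :=
          mul_le_mul' (pow_le_pow_left' (by exact_mod_cast hJc) 2)
            (Finset.sum_le_sum fun k _ => hM k e b he)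
      _ ≤ _ := mul_le_mul' le_rfl (ENNReal.sum_le_tsum J)
  · have hMd : ∀ k, Measurable (fun x : E 3 => M k (‖x‖⁻¹ • x)) := fun k => (hMm k).comp hmd
    change ∫⁻ x in closedBall (0 : E 3) 1, ((I0 + 4 : ℕ) : ℝ≥0∞) ^ 2 * ∑' k, M k (‖x‖⁻¹ • x) ≤ _
    rw [lintegral_const_mul _ (Measurable.tsum hMd), lintegral_tsum (fun k => (hMd k).aemeasurable)]
    calc ((I0 + 4 : ℕ) : ℝ≥0∞) ^ 2 * ∑' k, ∫⁻ x in closedBall (0 : E 3) 1, M k (‖x‖⁻¹ • x)
        ≤ ((I0 + 4 : ℕ) : ℝ≥0∞) ^ 2 * ∑' k, ENNReal.ofReal (aw I0 k) * ∫⁻ y, G y ^ 3 := by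
          gcongr with k
          exact hMi k
      _ = ((I0 + 4 : ℕ) : ℝ≥0∞) ^ 2 * ((∑' k, ENNReal.ofReal (aw I0 k)) * ∫⁻ y, G y ^ 3) := by
          rw [ENNReal.tsum_mul_right]
      _ ≤ ((I0 + 4 : ℕ) : ℝ≥0∞) ^ 2 * (ENNReal.ofReal (V3 ^ 3 + 4 * C1 * (1 + c2) *
            (I0 + 2) ^ 3) * ∫⁻ y, G y ^ 3) := by
          gcongr
          exact sum_aw I0
      _ = _ := by
          rw [← mul_assoc, ENNReal.ofReal_mul (by positivity), ENNReal.ofReal_pow (by positivity)]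
          congr 3
          rw [← ENNReal.ofReal_natCast]
          congr 1
          push_cast
          ring

theorem base3 : ∃ C : ℝ, 0 < C ∧ ∀ ρ : ℝ, 0 < ρ → ρ ≤ 1 → ∀ F G : E 3 → ℝ≥0∞, Measurable F →
    Measurable G → RadE F G → PM 2 ρ (ENNReal.ofReal (C * (1 + Real.log (1 / ρ)) ^ 5)) F G := by
  have hC := C1_nonneg
  have hc := c2_nonneg
  have hV := V3_nonneg
  refine ⟨25 * (V3 ^ 3 + 4 * C1 * (1 + c2) * 27) + 1, by positivity, ?_⟩
  intro ρ hρ hρ1 F G hF hG hFG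
  have hlog : 0 ≤ Real.log (1 / ρ) := Real.log_nonneg (by rw [le_div_iff₀ hρ]; linarith)
  set L : ℝ := 1 + Real.log (1 / ρ) with hL
  have hL1 : 1 ≤ L := by linarith
  obtain ⟨I0, hI0, hN⟩ := exists_I0 hρ hρ1
  obtain ⟨M, hM1, hM2, hM3⟩ := base3_aux hρ hρ1 hI0 hF hG hFG
  refine ⟨M, hM1, hM2, hM3.trans ?_⟩
  refine mul_le_mul' (ENNReal.ofReal_le_ofReal ?_) le_rfl
  push_cast at hN
  have hI : (0:ℝ) ≤ I0 := I0.cast_nonneg
  have h1 : ((I0:ℝ) + 4) ^ 2 ≤ 25 * L ^ 2 := by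
    have : (I0:ℝ) + 4 ≤ 5 * L := by linarith
    calc ((I0:ℝ) + 4) ^ 2 ≤ (5 * L) ^ 2 := by gcongr
      _ = _ := by ring
  have h2 : ((I0:ℝ) + 2) ^ 3 ≤ 27 * L ^ 3 := by
    calc ((I0:ℝ) + 2) ^ 3 ≤ (3 * L) ^ 3 := by gcongr
      _ = _ := by ring
  have h3 : (1:ℝ) ≤ L ^ 3 := one_le_pow₀ hL1
  calc ((I0:ℝ) + 4) ^ 2 * (V3 ^ 3 + 4 * C1 * (1 + c2) * (I0 + 2) ^ 3)
      ≤ (25 * L ^ 2) * (V3 ^ 3 * L ^ 3 + 4 * C1 * (1 + c2) * (27 * L ^ 3)) := by
        gcongr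
        exact le_mul_of_one_le_right (by positivity) h3
    _ = 25 * (V3 ^ 3 + 4 * C1 * (1 + c2) * 27) * L ^ 5 := by ring
    _ ≤ _ := by
        gcongr
        linarith

end Pool.Agent.TH970.Kr
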