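import Pool.Agent.W767.Sd.Main

set_option autoImplicit false

/-!
# Coordinates in three dimensions
-/

open MeasureTheory Set Filter Topology ENNReal NNReal Metric

namespace Pool.Agent.TH970.Kr

open Pool.Agent.H742R2.Kk Pool.Agent.W767.Kc Pool.Agent.W767.Sd

theorem lintegral_E0 (f : E 0 → ℝ≥0∞) : ∫⁻ z : E 0, f z = f 0 := by
  have h1 : ∀ z : E 0, f z = f 0 := fun z => by rw [Subsingleton.elim z 0]
  simp_rw [h1]
  rw [lintegral_const]
  have h2 : volume (univ : Set (E 0)) = 1 := by
    have h3 := (PiLp.volume_preserving_ofLp (Fin 0)).measure_preimage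
      (s := univ) (MeasurableSet.univ.nullMeasurableSet)
    rw [preimage_univ] at h3
    rw [h3, volume_pi, Measure.pi_of_empty]
    simp
  rw [h2, mul_one]

/-- Integration in orthonormal coordinates. -/
theorem lintegral_coord (b : OrthonormalBasis (Fin 3) ℝ (E 3)) {F : ℝ → ℝ → ℝ → ℝ≥0∞}
    (hF : Measurable (fun q : ℝ × ℝ × ℝ => F q.1 q.2.1 q.2.2)) :
    ∫⁻ y : E 3, F (inner ℝ y (b 0)) (inner ℝ y (b 1)) (inner ℝ y (b 2)) =
      ∫⁻ s : ℝ, ∫⁻ t : ℝ, ∫⁻ u : ℝ, F s t u := by
  set G : E 3 → ℝ≥0∞ := fun z => F (z 0) (z 1) (z 2) with hG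
  have hGm : Measurable G := by
    have h1 : Measurable (fun z : E 3 => (z 0, z 1, z 2)) :=
      (measurable_apply 0).prodMk ((measurable_apply 1).prodMk (measurable_apply 2))
    exact hF.comp h1
  have h1 := b.measurePreserving_repr.lintegral_comp hGm
  have h2 : ∀ y : E 3, G (b.repr y) = F (inner ℝ y (b 0)) (inner ℝ y (b 1)) (inner ℝ y (b 2)) := by
    intro y
    simp only [hG, OrthonormalBasis.repr_apply_apply]
    rw [real_inner_comm, real_inner_comm (b 1), real_inner_comm (b 2)]
  simp_rw [h2] at h1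
  rw [h1, lintegral_ins hGm]
  apply lintegral_congr
  intro s
  have hm1 : Measurable (fun z : E 2 => G (ins s z)) :=
    hGm.comp (measurable_ins.comp (measurable_const.prodMk measurable_id))
  rw [lintegral_ins hm1]
  apply lintegral_congr
  intro t
  have hm2 : Measurable (fun z : E 1 => G (ins s (ins t z))) :=
    hm1.comp (measurable_ins.comp (measurable_const.prodMk measurable_id))
  rw [lintegral_ins hm2]
  apply lintegral_congr
  intro u
  rw [lintegral_E0]
  rfl

/-- The volume of the set where three linear functions are small. -/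
theorem volume_slab (b : OrthonormalBasis (Fin 3) ℝ (E 3)) {A B D c0 c1 c2 : ℝ} (hA : 0 ≤ A)
    (hB : 0 ≤ B) (hc : c2 ≠ 0) :
    volume {y : E 3 | |inner ℝ y (b 0)| ≤ A ∧ |inner ℝ y (b 1)| ≤ B ∧
      |c0 * inner ℝ y (b 0) + c1 * inner ℝ y (b 1) + c2 * inner ℝ y (b 2)| ≤ D} ≤
    ENNReal.ofReal (8 * A * B * D / |c2|) := by
  set S : Set (E 3) := {y : E 3 | |inner ℝ y (b 0)| ≤ A ∧ |inner ℝ y (b 1)| ≤ B ∧
      |c0 * inner ℝ y (b 0) + c1 * inner ℝ y (b 1) + c2 * inner ℝ y (b 2)| ≤ D} with hS
  set W : Set (ℝ × ℝ × ℝ) := {q | |q.1| ≤ A ∧ |q.2.1| ≤ B ∧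
    |c0 * q.1 + c1 * q.2.1 + c2 * q.2.2| ≤ D} with hW
  have hWm : MeasurableSet W := by
    have m1 : Measurable (fun q : ℝ × ℝ × ℝ => |q.1|) := by fun_prop
    have m2 : Measurable (fun q : ℝ × ℝ × ℝ => |q.2.1|) := by fun_prop
    have m3 : Measurable (fun q : ℝ × ℝ × ℝ => |c0 * q.1 + c1 * q.2.1 + c2 * q.2.2|) := by fun_prop
    exact (measurableSet_le m1 measurable_const).inter
      ((measurableSet_le m2 measurable_const).inter (measurableSet_le m3 measurable_const))
  set F : ℝ → ℝ → ℝ → ℝ≥0∞ := fun s t u => W.indicator 1 (s, t, u) with hF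
  have hFm : Measurable (fun q : ℝ × ℝ × ℝ => F q.1 q.2.1 q.2.2) := by
    have : (fun q : ℝ × ℝ × ℝ => F q.1 q.2.1 q.2.2) = W.indicator 1 := by
      funext q; rfl
    rw [this]
    exact measurable_one.indicator hWm
  have hSm : MeasurableSet S := by
    have h1 : Measurable (fun y : E 3 => (inner ℝ y (b 0), inner ℝ y (b 1), inner ℝ y (b 2))) := by
      fun_prop
    exact h1 hWm
  have h1 : volume S = ∫⁻ y : E 3, F (inner ℝ y (b 0)) (inner ℝ y (b 1)) (inner ℝ y (b 2)) := by
    rw [← lintegral_indicator_one hSm]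
    rfl
  rw [h1, lintegral_coord b hFm]
  set K : ℝ≥0∞ := ENNReal.ofReal (2 * (D / |c2|)) with hK
  have h2 : ∀ s t : ℝ, ∫⁻ u : ℝ, F s t u ≤
      (Icc (-A) A).indicator (fun _ => (Icc (-B) B).indicator (fun _ => K) t) s := by
    intro s t
    by_cases hs : |s| ≤ A
    · by_cases ht : |t| ≤ B
      · have hs' : s ∈ Icc (-A) A := abs_le.1 hs
        have ht' : t ∈ Icc (-B) B := abs_le.1 ht
        rw [indicator_of_mem hs', indicator_of_mem ht']
        have m4 : Measurable (fun u : ℝ => |u * c2 + (c0 * s + c1 * t)|) := by fun_prop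
        have h3 : MeasurableSet {u : ℝ | |u * c2 + (c0 * s + c1 * t)| ≤ D} :=
          measurableSet_le m4 measurable_const
        calc ∫⁻ u : ℝ, F s t u ≤ ∫⁻ u : ℝ, {u : ℝ | |u * c2 + (c0 * s + c1 * t)| ≤ D}.indicator 1 u := by
              apply lintegral_mono
              intro u
              simp only [hF]
              by_cases hu : (s, t, u) ∈ W
              · have h4 : |c0 * s + c1 * t + c2 * u| ≤ D := hu.2.2
                have e : u * c2 + (c0 * s + c1 * t) = c0 * s + c1 * t + c2 * u := by ring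
                rw [← e] at h4
                have hu' : u ∈ {u : ℝ | |u * c2 + (c0 * s + c1 * t)| ≤ D} := h4
                rw [indicator_of_mem hu, indicator_of_mem hu']
                exact le_rfl
              · rw [indicator_of_notMem hu]
                exact zero_le
          _ = volume {u : ℝ | |u * c2 + (c0 * s + c1 * t)| ≤ D} := lintegral_indicator_one h3
          _ ≤ K := PlAux.vol_affine c2 _ D hc
      · have h0 : ∀ u, F s t u = 0 := by
          intro u
          simp only [hF]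
          rw [indicator_of_notMem]
          intro h; exact ht h.2.1
        simp_rw [h0]
        simp
    · have h0 : ∀ u, F s t u = 0 := by
        intro u
        simp only [hF]
        rw [indicator_of_notMem]
        intro h; exact hs h.1
      simp_rw [h0]
      simp
  calc ∫⁻ s : ℝ, ∫⁻ t : ℝ, ∫⁻ u : ℝ, F s t u
      ≤ ∫⁻ s : ℝ, ∫⁻ t : ℝ, (Icc (-A) A).indicator
          (fun _ => (Icc (-B) B).indicator (fun _ => K) t) s := by
        apply lintegral_mono
        intro s
        apply lintegral_mono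
        intro t
        exact h2 s t
    _ ≤ ∫⁻ s : ℝ, (Icc (-A) A).indicator (fun _ => K * ENNReal.ofReal (2 * B)) s := by
        apply lintegral_mono
        intro s
        simp only
        by_cases hs : s ∈ Icc (-A) A
        · simp only [indicator_of_mem hs]
          rw [lintegral_indicator_const measurableSet_Icc, Real.volume_Icc]
          apply le_of_eq
          congr 2
          ring
        · simp only [indicator_of_notMem hs]
          simp
    _ = K * ENNReal.ofReal (2 * B) * ENNReal.ofReal (2 * A) := by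
        rw [lintegral_indicator_const measurableSet_Icc, Real.volume_Icc]
        congr 2
        ring
    _ ≤ _ := by
        rw [hK, mul_assoc, ← ENNReal.ofReal_mul (by positivity), mul_comm,
          ← ENNReal.ofReal_mul (by positivity)]
        apply ENNReal.ofReal_le_ofReal
        apply le_of_eq
        ring

/-- The volume of a box. -/
theorem volume_box (b : OrthonormalBasis (Fin 3) ℝ (E 3)) {A B D : ℝ} (hA : 0 ≤ A)
    (hB : 0 ≤ B) :
    volume {y : E 3 | |inner ℝ y (b 0)| ≤ A ∧ |inner ℝ y (b 1)| ≤ B ∧ |inner ℝ y (b 2)| ≤ D} ≤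
    ENNReal.ofReal (8 * A * B * D) := by
  have h := volume_slab b (A := A) (B := B) (D := D) (c0 := 0) (c1 := 0) (c2 := 1) hA hB
    one_ne_zero
  simpa using h

theorem exists_basis {e n : E 3} (he : ‖e‖ = 1) (hn : ‖n‖ = 1) (hen : inner ℝ e n = (0:ℝ)) :
    ∃ b : OrthonormalBasis (Fin 3) ℝ (E 3), b 0 = e ∧ b 1 = n := by
  have hon : Orthonormal ℝ (({0, 1} : Set (Fin 3)).domRestrict ![e, n, 0]) := by
    rw [orthonormal_iff_ite]
    rintro ⟨i, hi⟩ ⟨j, hj⟩
    simp only [mem_insert_iff, mem_singleton_iff] at hi hj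
    rcases hi with rfl | rfl <;> rcases hj with rfl | rfl
    · simp [he]
    · simpa using hen
    · simpa [real_inner_comm] using hen
    · simp [hn]
  obtain ⟨b, hb⟩ := hon.exists_orthonormalBasis_extension_of_card_eq (by simp)
  exact ⟨b, by simpa using hb 0 (by simp), by simpa using hb 1 (by simp)⟩

theorem exists_basis_one {e : E 3} (he : ‖e‖ = 1) :
    ∃ b : OrthonormalBasis (Fin 3) ℝ (E 3), b 0 = e := by
  have hon : Orthonormal ℝ (({0} : Set (Fin 3)).domRestrict (fun _ => e)) := by
    rw [orthonormal_iff_ite]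
    rintro ⟨i, hi⟩ ⟨j, hj⟩
    simp only [mem_singleton_iff] at hi hj
    subst hi; subst hj
    simp [he]
  obtain ⟨b, hb⟩ := hon.exists_orthonormalBasis_extension_of_card_eq (by simp)
  exact ⟨b, hb 0 (by simp)⟩

/-- A unit vector orthogonal to a direction and to a given orthogonal vector. -/
theorem exists_normal {e p : E 3} (he : ‖e‖ = 1) (hp : inner ℝ e p = (0:ℝ)) :
    ∃ n : E 3, ‖n‖ = 1 ∧ inner ℝ e n = (0:ℝ) ∧ inner ℝ p n = (0:ℝ) := by
  by_cases h : p = 0
  · obtain ⟨b, hb⟩ := exists_basis_one he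
    refine ⟨b 1, b.norm_eq_one 1, ?_, by simp [h]⟩
    rw [← hb]
    exact b.inner_eq_zero (by decide)
  · have hp0 : 0 < ‖p‖ := norm_pos_iff.2 h
    obtain ⟨b, hb0, hb1⟩ := exists_basis (e := e) (n := ‖p‖⁻¹ • p) he
      (by rw [norm_smul, norm_inv, norm_norm, inv_mul_cancel₀ hp0.ne'])
      (by rw [inner_smul_right, hp, mul_zero])
    refine ⟨b 2, b.norm_eq_one 2, ?_, ?_⟩
    · rw [← hb0]
      exact b.inner_eq_zero (by decide)
    · have h1 : inner ℝ (b 1) (b 2) = (0:ℝ) := b.inner_eq_zero (by decide)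
      rw [hb1, real_inner_smul_left] at h1
      rcases mul_eq_zero.1 h1 with h2 | h2
      · exact absurd h2 (inv_ne_zero hp0.ne')
      · exact h2

end Pool.Agent.TH970.Kr
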