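import Pool.Agent.TH970.Kr.Pair

set_option autoImplicit false

/-!
# Integration over directions
-/

open MeasureTheory Set Filter Topology ENNReal NNReal Metric

namespace Pool.Agent.TH970.Kr

open Pool.Agent.H742R2.Kk Pool.Agent.W767.Kc Pool.Agent.W767.Sd

theorem log_int' {r d : ℝ} (hr : 0 < r) (hd : 0 < d) :
    ∫⁻ t in Icc (-1:ℝ) 1, ENNReal.ofReal (1 / (r * |t| + d)) ≤
      ENNReal.ofReal (2 / r * Real.log (1 + r / d)) := by
  have h := PlAux.log_int (d / r) 1 (by positivity) one_pos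
  have e1 : ∀ t : ℝ, ENNReal.ofReal (1 / (r * |t| + d)) =
      ENNReal.ofReal (1 / (4 * r)) * ENNReal.ofReal (4 / (d / r + |t|)) := by
    intro t
    rw [← ENNReal.ofReal_mul (by positivity)]
    congr 1
    have h1 : 0 < r * |t| + d := by positivity
    have h2 : 0 < d / r + |t| := by positivity
    field_simp
    ring
  simp_rw [e1]
  rw [lintegral_const_mul' _ _ ENNReal.ofReal_ne_top]
  calc ENNReal.ofReal (1 / (4 * r)) * ∫⁻ t in Icc (-1:ℝ) 1, ENNReal.ofReal (4 / (d / r + |t|))
      ≤ ENNReal.ofReal (1 / (4 * r)) *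
        ENNReal.ofReal (8 * Real.log ((d / r + 1) / (d / r))) := by gcongr
    _ = _ := by
        rw [← ENNReal.ofReal_mul (by positivity)]
        congr 1
        have e2 : (d / r + 1) / (d / r) = 1 + r / d := by field_simp
        rw [e2]
        field_simp
        ring

theorem norm_smul_dir (x : E 3) : ‖x‖ • (‖x‖⁻¹ • x) = x := by
  rcases eq_or_ne x 0 with h | h
  · simp [h]
  · rw [smul_smul, mul_inv_cancel₀ (norm_ne_zero_iff.2 h), one_smul]

/-- The integral of the kernel over all directions. -/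
theorem dir_int {r d c : ℝ} (hr : 0 < r) (hd : 0 < d) {e n : E 3} (he : ‖e‖ = 1)
    (hn : ‖n‖ = 1) (hen : inner ℝ e n = (0:ℝ)) {kf : E 3 → ℝ≥0∞}
    (hk : ∀ x : E 3, kf x ≠ 0 → ∃ ε : ℝ, (ε = 1 ∨ ε = -1) ∧ ‖‖x‖⁻¹ • x - ε • e‖ ≤ c)
    (hk2 : ∀ x : E 3, kf x ≤ ENNReal.ofReal (1 / (r * |inner ℝ (‖x‖⁻¹ • x) n| + d))) :
    ∫⁻ x in closedBall (0 : E 3) 1, kf x ≤
      ENNReal.ofReal (8 * c / r * Real.log (1 + r / d)) := by
  rcases lt_or_ge c 0 with hc | hc
  · have h0 : ∀ x, kf x = 0 := by
      intro x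
      by_contra h
      obtain ⟨ε, -, h1⟩ := hk x h
      have := (norm_nonneg _).trans h1
      linarith
    simp_rw [h0]
    simp
  obtain ⟨b, hb0, hb1⟩ := exists_basis he hn hen
  set A : ℝ → ℝ≥0∞ := (Icc (-1:ℝ) 1).indicator 1 with hA
  set B : ℝ → ℝ≥0∞ := (Icc (-1:ℝ) 1).indicator
    (fun t => ENNReal.ofReal (1 / (r * |t| + d))) with hB
  set C : ℝ → ℝ≥0∞ := (Icc (-c) c).indicator 1 with hC
  have hAm : Measurable A := measurable_one.indicator measurableSet_Icc
  have hBm : Measurable B := by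
    apply Measurable.indicator _ measurableSet_Icc
    apply ENNReal.measurable_ofReal.comp
    fun_prop
  have hCm : Measurable C := measurable_one.indicator measurableSet_Icc
  set F : ℝ → ℝ → ℝ → ℝ≥0∞ := fun s t u => A s * (B t * C u) with hF
  have hFm : Measurable (fun q : ℝ × ℝ × ℝ => F q.1 q.2.1 q.2.2) := by
    simp only [hF]
    exact (hAm.comp measurable_fst).mul ((hBm.comp (measurable_fst.comp measurable_snd)).mul
      (hCm.comp (measurable_snd.comp measurable_snd)))
  have hpt : ∀ x ∈ closedBall (0 : E 3) 1, kf x ≤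
      F (inner ℝ x (b 0)) (inner ℝ x (b 1)) (inner ℝ x (b 2)) := by
    intro x hx
    rw [mem_closedBall_zero_iff] at hx
    by_cases h : kf x = 0
    · rw [h]; exact zero_le
    · obtain ⟨ε, -, h1⟩ := hk x h
      have hi : ∀ v : E 3, ‖v‖ = 1 → |(inner ℝ x v : ℝ)| ≤ 1 := by
        intro v hv
        have := abs_real_inner_le_norm x v
        rw [hv, mul_one] at this
        linarith
      have hx0 : (inner ℝ x (b 0) : ℝ) ∈ Icc (-1:ℝ) 1 := abs_le.1 (hi _ (b.norm_eq_one 0))
      have hx1 : (inner ℝ x (b 1) : ℝ) ∈ Icc (-1:ℝ) 1 := abs_le.1 (hi _ (b.norm_eq_one 1))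
      have hxv : ∀ v : E 3, |(inner ℝ x v : ℝ)| ≤ |(inner ℝ (‖x‖⁻¹ • x) v : ℝ)| := by
        intro v
        have e1 : (inner ℝ x v : ℝ) = ‖x‖ * inner ℝ (‖x‖⁻¹ • x) v := by
          rw [← real_inner_smul_left, norm_smul_dir]
        rw [e1, abs_mul, abs_norm]
        exact mul_le_of_le_one_left (abs_nonneg _) hx
      have hx2 : (inner ℝ x (b 2) : ℝ) ∈ Icc (-c) c := by
        apply abs_le.1
        refine (hxv (b 2)).trans ?_
        have e2 : (inner ℝ (‖x‖⁻¹ • x) (b 2) : ℝ) = inner ℝ (‖x‖⁻¹ • x - ε • e) (b 2) := by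
          have e3 : (inner ℝ (ε • e) (b 2) : ℝ) = 0 := by
            rw [real_inner_smul_left, ← hb0, b.inner_eq_zero (by decide : (0:Fin 3) ≠ 2), mul_zero]
          rw [inner_sub_left, e3, sub_zero]
        rw [e2]
        refine (abs_real_inner_le_norm _ _).trans ?_
        rw [b.norm_eq_one, mul_one]
        exact h1
      simp only [hF, hA, hB, hC]
      rw [indicator_of_mem hx0, indicator_of_mem hx1, indicator_of_mem hx2]
      simp only [Pi.one_apply, one_mul, mul_one]
      refine (hk2 x).trans (ENNReal.ofReal_le_ofReal ?_)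
      rw [hb1]
      apply one_div_le_one_div_of_le (by positivity)
      have := hxv n
      gcongr
  calc ∫⁻ x in closedBall (0 : E 3) 1, kf x
      ≤ ∫⁻ x in closedBall (0 : E 3) 1, F (inner ℝ x (b 0)) (inner ℝ x (b 1)) (inner ℝ x (b 2)) :=
        setLIntegral_mono' isClosed_closedBall.measurableSet hpt
    _ ≤ ∫⁻ x, F (inner ℝ x (b 0)) (inner ℝ x (b 1)) (inner ℝ x (b 2)) :=
        setLIntegral_le_lintegral _ _
    _ = ∫⁻ s : ℝ, ∫⁻ t : ℝ, ∫⁻ u : ℝ, F s t u := lintegral_coord b hFm
    _ = (∫⁻ s, A s) * ((∫⁻ t, B t) * ∫⁻ u, C u) := by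
        simp only [hF]
        rw [← lintegral_mul_const _ hAm]
        apply lintegral_congr
        intro s
        rw [← lintegral_mul_const _ hBm, ← lintegral_const_mul _ (hBm.mul_const _)]
        apply lintegral_congr
        intro t
        rw [lintegral_const_mul _ (hCm.const_mul _), lintegral_const_mul _ hCm]
    _ ≤ ENNReal.ofReal 2 * (ENNReal.ofReal (2 / r * Real.log (1 + r / d)) *
          ENNReal.ofReal (2 * c)) := by
        have h1 : ∫⁻ s, A s = ENNReal.ofReal 2 := by
          rw [hA, lintegral_indicator_one measurableSet_Icc, Real.volume_Icc]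
          norm_num
        have h2 : ∫⁻ u, C u = ENNReal.ofReal (2 * c) := by
          rw [hC, lintegral_indicator_one measurableSet_Icc, Real.volume_Icc]
          congr 1
          ring
        have h3 : ∫⁻ t, B t ≤ ENNReal.ofReal (2 / r * Real.log (1 + r / d)) := by
          rw [hB, lintegral_indicator measurableSet_Icc]
          exact log_int' hr hd
        rw [h1, h2]
        gcongr
    _ = _ := by
        have hl : 0 ≤ Real.log (1 + r / d) := Real.log_nonneg (by
          have : 0 ≤ r / d := by positivity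
          linarith)
        rw [← ENNReal.ofReal_mul (by positivity), ← ENNReal.ofReal_mul (by positivity)]
        congr 1
        ring

end Pool.Agent.TH970.Kr
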