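import Pool.Agent.H742R2.Kk.TTstar

set_option autoImplicit false

/-!
# The `TT*` inequality for a supremum over countably many kernels
-/

open MeasureTheory Set Filter Topology ENNReal NNReal Metric

namespace Pool.Agent.TH970.Kr

open Pool.Agent.H742R2.Kk

theorem exists_index {Ω : Type*} [MeasurableSpace Ω] {Φ : ℕ → Ω → ℝ≥0∞}
    (hΦ : ∀ j, Measurable (Φ j)) (N : ℕ) :
    ∃ J : Ω → ℕ, Measurable J ∧ ∀ ω, Φ (J ω) ω = (Finset.range (N + 1)).sup (fun j => Φ j ω) := by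
  classical
  induction N with
  | zero => exact ⟨fun _ => 0, measurable_const, fun e => by simp⟩
  | succ N ih =>
    obtain ⟨J, hJ, hJe⟩ := ih
    have hm : Measurable (fun ω => Φ (J ω) ω) := by
      have h1 : Measurable (fun p : ℕ × Ω => Φ p.1 p.2) :=
        measurable_from_prod_countable_right (fun j => hΦ j)
      exact h1.comp (hJ.prodMk measurable_id)
    set S : Set Ω := {ω | Φ (J ω) ω ≤ Φ (N + 1) ω} with hS
    have hSm : MeasurableSet S := measurableSet_le hm (hΦ (N + 1))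
    refine ⟨fun ω => if ω ∈ S then N + 1 else J ω, Measurable.ite hSm measurable_const hJ, ?_⟩
    intro ω
    rw [Finset.range_add_one, Finset.sup_insert, ← hJe ω]
    by_cases h : ω ∈ S
    · simp only [h, if_true]
      exact (max_eq_left h).symm
    · simp only [h, if_false]
      have h2 : Φ (N + 1) ω ≤ Φ (J ω) ω := le_of_lt (not_le.1 h)
      exact (max_eq_right h2).symm

theorem tt_sup {Ω Q : Type*} [MeasurableSpace Ω] [MeasurableSpace Q]
    (μ : Measure Ω) (ρ : Measure Q) [SigmaFinite μ] [SFinite ρ]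
    (K : ℕ → Ω → Q → ℝ≥0∞) (hK : ∀ j, Measurable (Function.uncurry (K j))) (B : ℝ≥0∞)
    (k : ℕ → Ω → Ω → ℝ≥0∞) (hk : ∀ i j ω ω', ∫⁻ q, K i ω q * K j ω' q ∂ρ ≤ k i ω ω')
    (hB : ∀ i ω, ∫⁻ ω', k i ω ω' ∂μ ≤ B) (h : Q → ℝ≥0∞) (hh : Measurable h) :
    ∫⁻ ω, (⨆ j, ∫⁻ q, K j ω q * h q ∂ρ) ^ 2 ∂μ ≤ B * ∫⁻ q, h q ^ 2 ∂ρ := by
  set Φ : ℕ → Ω → ℝ≥0∞ := fun j ω => ∫⁻ q, K j ω q * h q ∂ρ with hΦdef
  have hΦ : ∀ j, Measurable (Φ j) := by
    intro j
    apply Measurable.lintegral_prod_right'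
      (f := fun p : Ω × Q => Function.uncurry (K j) p * h p.2)
    exact (hK j).mul (hh.comp measurable_snd)
  have hN : ∀ N : ℕ, ∫⁻ ω, ((Finset.range (N + 1)).sup (fun j => Φ j ω)) ^ 2 ∂μ ≤
      B * ∫⁻ q, h q ^ 2 ∂ρ := by
    intro N
    obtain ⟨J, hJ, hJe⟩ := exists_index hΦ N
    have hK' : Measurable (Function.uncurry (fun ω q => K (J ω) ω q)) := by
      have h1 : Measurable (fun p : ℕ × (Ω × Q) => K p.1 p.2.1 p.2.2) :=
        measurable_from_prod_countable_right (fun j => hK j)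
      exact h1.comp ((hJ.comp measurable_fst).prodMk measurable_id)
    have h1 := tt_star μ ρ (fun ω q => K (J ω) ω q) hK' B (fun ω => by
      refine le_trans (lintegral_mono fun ω' => ?_) (hB (J ω) ω)
      exact hk _ _ _ _) h hh
    have h2 : ∀ ω, (∫⁻ q, K (J ω) ω q * h q ∂ρ) = (Finset.range (N + 1)).sup (fun j => Φ j ω) :=
      fun ω => hJe ω
    simp_rw [h2] at h1
    exact h1
  have hmono : Monotone (fun (N : ℕ) ω => ((Finset.range (N + 1)).sup (fun j => Φ j ω)) ^ 2) := by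
    intro N N' hNN ω
    apply pow_le_pow_left'
    apply Finset.sup_mono
    intro i hi
    simp only [Finset.mem_range] at hi ⊢
    omega
  have hmeas : ∀ N : ℕ, Measurable (fun ω => ((Finset.range (N + 1)).sup (fun j => Φ j ω)) ^ 2) := by
    intro N
    apply Measurable.pow_const
    obtain ⟨J, hJ, hJe⟩ := exists_index hΦ N
    have h1 : Measurable (fun p : ℕ × Ω => Φ p.1 p.2) :=
      measurable_from_prod_countable_right (fun j => hΦ j)
    have h2 : Measurable (fun ω => Φ (J ω) ω) := h1.comp (hJ.prodMk measurable_id)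
    have h3 : (fun ω => Φ (J ω) ω) = fun ω => (Finset.range (N + 1)).sup (fun j => Φ j ω) :=
      funext hJe
    rw [h3] at h2
    exact h2
  have hsup : ∀ ω, (⨆ j, Φ j ω) ^ 2 = ⨆ N : ℕ, ((Finset.range (N + 1)).sup (fun j => Φ j ω)) ^ 2 := by
    intro ω
    rw [← ENNReal.iSup_pow]
    congr 1
    apply le_antisymm
    · apply iSup_le
      intro j
      refine le_trans ?_ (le_iSup _ j)
      exact Finset.le_sup (f := fun j => Φ j ω) (Finset.self_mem_range_succ j)
    · apply iSup_le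
      intro N
      apply Finset.sup_le
      intro j _
      exact le_iSup (fun j => Φ j ω) j
  calc ∫⁻ ω, (⨆ j, Φ j ω) ^ 2 ∂μ
      = ∫⁻ ω, ⨆ N : ℕ, ((Finset.range (N + 1)).sup (fun j => Φ j ω)) ^ 2 ∂μ :=
        lintegral_congr hsup
    _ = ⨆ N : ℕ, ∫⁻ ω, ((Finset.range (N + 1)).sup (fun j => Φ j ω)) ^ 2 ∂μ :=
        lintegral_iSup hmeas hmono
    _ ≤ _ := iSup_le hN

end Pool.Agent.TH970.Kr
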