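import Pool.Agent.TH970.Kr.Kern
import Pool.Agent.TH970.Kr.Sup

set_option autoImplicit false

/-!
# The quadratic estimate for conical pieces
-/

open MeasureTheory Set Filter Topology ENNReal NNReal Metric

namespace Pool.Agent.TH970.Kr

open Pool.Agent.H742R2.Kk Pool.Agent.W767.Kc Pool.Agent.W767.Sd

/-- The component orthogonal to `e`. -/
noncomputable def pr (e q : E 3) : E 3 := q - (inner ℝ q e : ℝ) • e

/-- The normalised component. -/
noncomputable def un (e q : E 3) : E 3 := ‖pr e q‖⁻¹ • pr e q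

theorem inner_pr {e q : E 3} (he : ‖e‖ = 1) : inner ℝ e (pr e q) = (0:ℝ) := by
  rw [pr, inner_sub_right, inner_smul_right, real_inner_self_eq_norm_sq, he, real_inner_comm]
  ring

theorem inner_un {e q : E 3} (he : ‖e‖ = 1) : inner ℝ e (un e q) = (0:ℝ) := by
  rw [un, inner_smul_right, inner_pr he, mul_zero]

theorem norm_un {e q : E 3} (h : pr e q ≠ 0) : ‖un e q‖ = 1 := by
  rw [un, norm_smul, norm_inv, norm_norm, inv_mul_cancel₀ (norm_ne_zero_iff.2 h)]

theorem measurable_pr (q : E 3) : Measurable (fun e : E 3 => pr e q) := by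
  unfold pr
  fun_prop

theorem measurable_un (q : E 3) : Measurable (fun e : E 3 => un e q) := by
  unfold un
  exact (measurable_pr q).norm.inv.smul (measurable_pr q)

/-- The set of the kernel. -/
def KS (r s d : ℝ) (q : E 3) : Set (E 3 × E 3) :=
  {p | ‖p.1‖ = 1 ∧ pr p.1 q ≠ 0 ∧ p.2 ∈ CP r s d p.1 (un p.1 q)}

theorem measurableSet_KS (r s d : ℝ) (q : E 3) : MeasurableSet (KS r s d q) := by
  have m1 : Measurable (fun p : E 3 × E 3 => ‖p.1‖) := by fun_prop
  have m2 : Measurable (fun p : E 3 × E 3 => pr p.1 q) := (measurable_pr q).comp measurable_fst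
  have m3 : Measurable (fun p : E 3 × E 3 => ‖p.2‖) := by fun_prop
  have m4 : Measurable (fun p : E 3 × E 3 => |(inner ℝ p.2 (un p.1 q) : ℝ)|) := by
    have h1 : Measurable (fun p : E 3 × E 3 => un p.1 q) := (measurable_un q).comp measurable_fst
    have h2 : Measurable (fun p : E 3 × E 3 => (inner ℝ p.2 (un p.1 q) : ℝ)) :=
      measurable_snd.inner h1
    exact continuous_abs.measurable.comp h2
  have m5 : Measurable (fun p : E 3 × E 3 => ‖p.2 - (inner ℝ p.2 p.1 : ℝ) • p.1‖) := by fun_prop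
  exact (m1 (measurableSet_singleton 1)).inter ((m2 (measurableSet_singleton 0).compl).inter
    ((measurableSet_le measurable_const m3).inter ((measurableSet_le m3 measurable_const).inter
      ((measurableSet_le m4 measurable_const).inter (measurableSet_le m5 measurable_const)))))

theorem isClosed_CP (r s d : ℝ) (e n : E 3) : IsClosed (CP r s d e n) := by
  have c1 : Continuous (fun y : E 3 => ‖y‖) := by fun_prop
  have c2 : Continuous (fun y : E 3 => |(inner ℝ y n : ℝ)|) := by fun_prop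
  have c3 : Continuous (fun y : E 3 => ‖y - (inner ℝ y e : ℝ) • e‖) := by fun_prop
  exact (isClosed_le continuous_const c1).inter ((isClosed_le c1 continuous_const).inter
    ((isClosed_le c2 continuous_const).inter (isClosed_le c3 continuous_const)))

theorem cp_approx {r s d : ℝ} (hr : 0 < r) (hd : 0 < d) {e n q : E 3} (he : ‖e‖ = 1)
    (hn : ‖n‖ = 1) (hen : inner ℝ e n = (0:ℝ)) (hq : ‖q - n‖ ≤ d / (2 * r + 2 * d)) :
    pr e q ≠ 0 ∧ CP r s d e n ⊆ CP r s (2 * d) e (un e q) := by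
  set η := d / (2 * r + 2 * d) with hη
  have hη0 : 0 < η := by positivity
  have hη1 : η * (2 * r + 2 * d) = d := by rw [hη]; field_simp
  have h1 : pr e q - n = (q - n) - (inner ℝ (q - n) e : ℝ) • e := by
    rw [pr, inner_sub_left, real_inner_comm e n, hen, sub_zero]
    abel
  have h2 : ‖pr e q - n‖ ≤ η := by
    rw [h1]
    exact (perp_le he).trans hq
  have h3 : 1 - η ≤ ‖pr e q‖ := by
    have h4 : ‖n‖ ≤ ‖pr e q‖ + ‖pr e q - n‖ := by
      calc ‖n‖ = ‖pr e q - (pr e q - n)‖ := by congr 1; abel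
        _ ≤ _ := norm_sub_le _ _
    rw [hn] at h4
    linarith
  have hη2 : η ≤ 1 / 2 := by
    rw [hη, div_le_div_iff₀ (by positivity) (by norm_num)]
    linarith
  have h5 : 0 < ‖pr e q‖ := by linarith
  refine ⟨norm_pos_iff.1 h5, ?_⟩
  rintro y ⟨hy1, hy2, hy3, hy4⟩
  refine ⟨hy1, hy2, ?_, hy4⟩
  rw [un, inner_smul_right, abs_mul, abs_of_pos (inv_pos.2 h5), inv_mul_le_iff₀ h5]
  have e1 : (inner ℝ y (pr e q) : ℝ) = inner ℝ y n + inner ℝ y (pr e q - n) := by
    rw [inner_sub_right]; ring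
  rw [e1]
  calc |(inner ℝ y n : ℝ) + inner ℝ y (pr e q - n)|
      ≤ |(inner ℝ y n : ℝ)| + |(inner ℝ y (pr e q - n) : ℝ)| := abs_add_le _ _
    _ ≤ d + ‖y‖ * ‖pr e q - n‖ := add_le_add hy3 (abs_real_inner_le_norm _ _)
    _ ≤ d + 2 * r * η := by gcongr
    _ ≤ (1 - η) * (2 * d) := by nlinarith
    _ ≤ ‖pr e q‖ * (2 * d) := by gcongr

/-- The kernel. -/
noncomputable def KK (r s d : ℝ) (q e y : E 3) : ℝ≥0∞ := (KS r s d q).indicator 1 (e, y)

theorem measurable_KK (r s d : ℝ) (q : E 3) : Measurable (Function.uncurry (KK r s d q)) := by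
  have : Function.uncurry (KK r s d q) = (KS r s d q).indicator 1 := by
    funext p; rfl
  rw [this]
  exact measurable_one.indicator (measurableSet_KS _ _ _ _)

theorem measurable_KK' (r s d : ℝ) (q : E 3) :
    Measurable (fun p : E 3 × E 3 => KK r s d q (‖p.1‖⁻¹ • p.1) p.2) := by
  have h1 : Measurable (fun p : E 3 × E 3 => (‖p.1‖⁻¹ • p.1, p.2)) :=
    (measurable_fst.norm.inv.smul measurable_fst).prodMk measurable_snd
  have h2 : Measurable (fun p : E 3 × E 3 => (KS r s d q).indicator (1 : E 3 × E 3 → ℝ≥0∞)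
      (‖p.1‖⁻¹ • p.1, p.2)) := (measurable_one.indicator (measurableSet_KS r s d q)).comp h1
  exact h2

open Classical in
/-- The bound for the product of two kernels. -/
noncomputable def kf (r s d : ℝ) (q e e' : E 3) : ℝ≥0∞ :=
  if (‖e‖ = 1 ∧ pr e q ≠ 0) ∧ (∃ ε : ℝ, (ε = 1 ∨ ε = -1) ∧ ‖e' - ε • e‖ ≤ 32 * s / r) then
    ENNReal.ofReal (1 / (r * |inner ℝ e' (un e q)| + d)) else 0

theorem KK_pair {r s d : ℝ} (hr : 0 < r) (hd : 0 < d) (hds : d ≤ s) (q q' e e' : E 3) :
    ∫⁻ y, KK r s d q e y * KK r s d q' e' y ≤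
      ENNReal.ofReal (2240 * (r * d ^ 2 * s)) * kf r s d q e e' := by
  set C1 := CP r s d e (un e q) with hC1
  set C2 := CP r s d e' (un e' q') with hC2
  by_cases hg : (‖e‖ = 1 ∧ pr e q ≠ 0) ∧ (‖e'‖ = 1 ∧ pr e' q' ≠ 0) ∧ (C1 ∩ C2).Nonempty
  · obtain ⟨⟨g1, g2⟩, ⟨g3, g4⟩, g5⟩ := hg
    have h1 : ∫⁻ y, KK r s d q e y * KK r s d q' e' y ≤ volume (C1 ∩ C2) := by
      rw [← lintegral_indicator_one ((isClosed_CP _ _ _ _ _).measurableSet.inter
        (isClosed_CP _ _ _ _ _).measurableSet)]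
      apply lintegral_mono
      intro y
      simp only [KK]
      by_cases m1 : (e, y) ∈ KS r s d q
      · by_cases m2 : (e', y) ∈ KS r s d q'
        · have m3 : y ∈ C1 ∩ C2 := ⟨m1.2.2, m2.2.2⟩
          rw [indicator_of_mem m1, indicator_of_mem m2, indicator_of_mem m3]
          simp
        · rw [indicator_of_notMem m2, mul_zero]; exact zero_le
      · rw [indicator_of_notMem m1, zero_mul]; exact zero_le
    refine h1.trans ((pair_volume hr hd hds g1 (norm_un g2) (inner_un g1) g3 (norm_un g4)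
      (inner_un g3) g5).trans ?_)
    obtain ⟨y, hy1, hy2⟩ := g5
    have hdir := cp_dir hr g1 g3 hy1 hy2
    have e1 : kf r s d q e e' = ENNReal.ofReal (1 / (r * |inner ℝ e' (un e q)| + d)) := by
      unfold kf
      rw [if_pos ⟨⟨g1, g2⟩, hdir⟩]
    rw [e1, ← ENNReal.ofReal_mul (by
      have : 0 < s := hd.trans_le hds
      positivity)]
    apply ENNReal.ofReal_le_ofReal
    apply le_of_eq
    ring
  · have h1 : ∀ y, KK r s d q e y * KK r s d q' e' y = 0 := by
      intro y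
      simp only [KK]
      by_cases m1 : (e, y) ∈ KS r s d q
      · by_cases m2 : (e', y) ∈ KS r s d q'
        · exact absurd ⟨⟨m1.1, m1.2.1⟩, ⟨m2.1, m2.2.1⟩, ⟨y, m1.2.2, m2.2.2⟩⟩ hg
        · rw [indicator_of_notMem m2, mul_zero]
      · rw [indicator_of_notMem m1, zero_mul]
    simp_rw [h1]
    simp

theorem kf_int {r s d : ℝ} (hr : 0 < r) (hd : 0 < d) (q e : E 3) :
    ∫⁻ x in closedBall (0 : E 3) 1, kf r s d q e (‖x‖⁻¹ • x) ≤
      ENNReal.ofReal (8 * (32 * s / r) / r * Real.log (1 + r / d)) := by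
  by_cases hg : ‖e‖ = 1 ∧ pr e q ≠ 0
  · apply dir_int hr hd hg.1 (norm_un hg.2) (inner_un hg.1)
    · intro x hx
      unfold kf at hx
      by_contra hcon
      apply hx
      rw [if_neg]
      rintro ⟨_, h⟩
      exact hcon h
    · intro x
      unfold kf
      split_ifs
      · exact le_rfl
      · exact zero_le
  · have h0 : ∀ x, kf r s d q e (‖x‖⁻¹ • x) = 0 := by
      intro x
      unfold kf
      rw [if_neg]
      rintro ⟨h, _⟩
      exact hg h
    simp_rw [h0]
    simp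

/-- The quadratic estimate. -/
theorem cone_L2 {r s d : ℝ} (hr : 0 < r) (hd : 0 < d) (hds : d ≤ s) {H : E 3 → ℝ≥0∞}
    (hH : Measurable H) :
    ∃ M : E 3 → ℝ≥0∞, Measurable M ∧
      (∀ e n : E 3, ‖e‖ = 1 → ‖n‖ = 1 → inner ℝ e n = (0:ℝ) →
        (∫⁻ y in CP r s d e n, H y) ^ 2 ≤ M e) ∧
      ∫⁻ x in closedBall (0 : E 3) 1, M (‖x‖⁻¹ • x) ≤
        ENNReal.ofReal (9175040 * (d ^ 2 * s ^ 2 / r) * Real.log (1 + r / (2 * d))) *
          ∫⁻ y, H y ^ 2 := by
  set q : ℕ → E 3 := TopologicalSpace.denseSeq (E 3) with hqdef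
  set D : ℝ := 2 * d with hD
  set S : ℝ := 2 * s with hS
  have hD0 : 0 < D := by positivity
  have hDS : D ≤ S := by linarith
  have hs0 : 0 < s := hd.trans_le hds
  set Φ : ℕ → E 3 → ℝ≥0∞ := fun j e => ∫⁻ y, KK r S D (q j) e y * H y with hΦ
  have hΦm : ∀ j, Measurable (Φ j) := by
    intro j
    apply Measurable.lintegral_prod_right'
      (f := fun p : E 3 × E 3 => Function.uncurry (KK r S D (q j)) p * H p.2)
    exact (measurable_KK _ _ _ _).mul (hH.comp measurable_snd)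
  have hmd : Measurable (fun x : E 3 => ‖x‖⁻¹ • x) := measurable_norm.inv.smul measurable_id
  refine ⟨fun e => (⨆ j, Φ j e) ^ 2, (Measurable.iSup hΦm).pow_const 2, ?_, ?_⟩
  · intro e n he hn hen
    have hdn : DenseRange q := TopologicalSpace.denseRange_denseSeq (E 3)
    obtain ⟨j, hj⟩ := hdn.exists_dist_lt n (show (0:ℝ) < d / (2 * r + 2 * d) by positivity)
    have hj' : ‖q j - n‖ ≤ d / (2 * r + 2 * d) := by
      rw [← dist_eq_norm, dist_comm]; exact hj.le
    obtain ⟨h1, h2⟩ := cp_approx (s := s) hr hd he hn hen hj'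
    refine pow_le_pow_left' ?_ 2
    refine le_trans ?_ (le_iSup (fun j => Φ j e) j)
    rw [← lintegral_indicator (isClosed_CP _ _ _ _ _).measurableSet]
    apply lintegral_mono
    intro y
    simp only
    by_cases hy : y ∈ CP r s d e n
    · have hmem : (e, y) ∈ KS r S D (q j) := by
        refine ⟨he, h1, ?_⟩
        obtain ⟨a1, a2, a3, a4⟩ := h2 hy
        exact ⟨a1, a2, a3, a4.trans (by linarith)⟩
      rw [indicator_of_mem hy, KK, indicator_of_mem hmem]
      simp
    · rw [indicator_of_notMem hy]; exact zero_le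
  · have hKm : ∀ j, Measurable (Function.uncurry
        (fun (ω y : E 3) => KK r S D (q j) (‖ω‖⁻¹ • ω) y)) := by
      intro j
      exact measurable_KK' r S D (q j)
    have hk : ∀ (i j : ℕ) (ω ω' : E 3), ∫⁻ y, KK r S D (q i) (‖ω‖⁻¹ • ω) y *
        KK r S D (q j) (‖ω'‖⁻¹ • ω') y ≤ ENNReal.ofReal (2240 * (r * D ^ 2 * S)) *
        kf r S D (q i) (‖ω‖⁻¹ • ω) (‖ω'‖⁻¹ • ω') :=
      fun i j ω ω' => KK_pair hr hD0 hDS _ _ _ _
    have hB : ∀ (i : ℕ) (ω : E 3), ∫⁻ ω' in closedBall (0 : E 3) 1,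
        ENNReal.ofReal (2240 * (r * D ^ 2 * S)) *
        kf r S D (q i) (‖ω‖⁻¹ • ω) (‖ω'‖⁻¹ • ω') ≤ ENNReal.ofReal (2240 * (r * D ^ 2 * S)) *
        ENNReal.ofReal (8 * (32 * S / r) / r * Real.log (1 + r / D)) := by
      intro i ω
      rw [lintegral_const_mul' _ _ ENNReal.ofReal_ne_top]
      gcongr
      exact kf_int hr hD0 _ _
    have hkey : ∫⁻ ω in closedBall (0 : E 3) 1, (⨆ j, ∫⁻ y, KK r S D (q j) (‖ω‖⁻¹ • ω) y * H y) ^ 2
        ≤ ENNReal.ofReal (2240 * (r * D ^ 2 * S)) *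
        ENNReal.ofReal (8 * (32 * S / r) / r * Real.log (1 + r / D)) * ∫⁻ y, H y ^ 2 :=
      tt_sup (volume.restrict (closedBall (0 : E 3) 1)) (volume : Measure (E 3)) _ hKm _ _ hk hB H hH
    refine hkey.trans (le_of_eq ?_)
    congr 1
    rw [← ENNReal.ofReal_mul (by positivity)]
    congr 1
    rw [hS, hD]
    field_simp
    ring

end Pool.Agent.TH970.Kr
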