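import Pool.Agent.TH970.Kr.Coord

set_option autoImplicit false

/-!
# Two conical pieces
-/

open MeasureTheory Set Filter Topology ENNReal NNReal Metric

namespace Pool.Agent.TH970.Kr

open Pool.Agent.H742R2.Kk Pool.Agent.W767.Kc Pool.Agent.W767.Sd

/-- A conical piece: the points of a spherical shell close to the plane with normal `n` and to the
line with direction `e`. -/
def CP (r s d : ℝ) (e n : E 3) : Set (E 3) :=
  {y | r / 2 ≤ ‖y‖ ∧ ‖y‖ ≤ 2 * r ∧ |inner ℝ y n| ≤ d ∧ ‖y - (inner ℝ y e : ℝ) • e‖ ≤ s}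

theorem alg_one {r s d α β γ a' b' c' σ ν μ : ℝ} (hr : 0 < r) (hds : d ≤ s)
    (hs : s ≤ r / 16) (h1 : α ^ 2 + β ^ 2 + γ ^ 2 = 1) (h2 : a' ^ 2 + b' ^ 2 + c' ^ 2 = 1)
    (h3 : α * a' + β * b' + γ * c' = 0) (hσ : 7 * r / 16 ≤ |σ|) (hν : |ν| ≤ d) (hμ : |μ| ≤ s)
    (hin : |σ * a' + ν * b' + μ * c'| ≤ d) (hβ : |β| ≤ 32 * s / r) (hγ : |γ| ≤ 32 * s / r) :
    r * |β| + d ≤ 70 * (d + s * |c'|) := by
  have hd : 0 ≤ d := (abs_nonneg _).trans hν
  have hs0 : 0 ≤ s := hd.trans hds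
  have ha1 : |a'| ≤ 1 := by
    rw [← sq_le_one_iff_abs_le_one]; nlinarith [sq_nonneg b', sq_nonneg c']
  have hb1 : |b'| ≤ 1 := by
    rw [← sq_le_one_iff_abs_le_one]; nlinarith [sq_nonneg a', sq_nonneg c']
  have hc1 : |c'| ≤ 1 := by
    rw [← sq_le_one_iff_abs_le_one]; nlinarith [sq_nonneg a', sq_nonneg b']
  have hα1 : |α| ≤ 1 := by
    rw [← sq_le_one_iff_abs_le_one]; nlinarith [sq_nonneg β, sq_nonneg γ]
  have hA : |σ| * |a'| ≤ 2 * d + s * |c'| := by
    have e1 : σ * a' = (σ * a' + ν * b' + μ * c') - ν * b' - μ * c' := by ring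
    calc |σ| * |a'| = |σ * a'| := (abs_mul _ _).symm
      _ = |(σ * a' + ν * b' + μ * c') - ν * b' - μ * c'| := by rw [← e1]
      _ ≤ |(σ * a' + ν * b' + μ * c') - ν * b'| + |μ * c'| := abs_sub _ _
      _ ≤ |σ * a' + ν * b' + μ * c'| + |ν * b'| + |μ * c'| := by
          gcongr
          exact abs_sub _ _
      _ ≤ d + d * 1 + s * |c'| := by
          rw [abs_mul, abs_mul]
          gcongr
      _ = _ := by ring
  have hA2 : r * |a'| ≤ 5 * d + 3 * (s * |c'|) := by
    have h4 : 7 * r / 16 * |a'| ≤ |σ| * |a'| := by gcongr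
    have h5 : 0 ≤ s * |c'| := by positivity
    linarith
  have hsc : s * |c'| ≤ s := mul_le_of_le_one_right hs0 hc1
  have hA3 : |a'| ≤ 1 / 2 := by
    have h4 : r * |a'| ≤ r * (1 / 2) := by linarith
    exact le_of_mul_le_mul_left h4 hr
  have hrγ : r * |γ| ≤ 32 * s := by
    rw [le_div_iff₀ hr] at hγ; linarith
  have hrβ : r * |β| ≤ 32 * s := by
    rw [le_div_iff₀ hr] at hβ; linarith
  have hB : r * (|β| * |b'|) ≤ 5 * d + 35 * (s * |c'|) := by
    have e1 : β * b' = -(α * a') - γ * c' := by linarith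
    have h4 : |β| * |b'| ≤ 1 * |a'| + |γ| * |c'| := by
      calc |β| * |b'| = |β * b'| := (abs_mul _ _).symm
        _ = |-(α * a') - γ * c'| := by rw [e1]
        _ ≤ |-(α * a')| + |γ * c'| := abs_sub _ _
        _ = |α| * |a'| + |γ| * |c'| := by rw [abs_neg, abs_mul, abs_mul]
        _ ≤ _ := by gcongr
    calc r * (|β| * |b'|) ≤ r * (1 * |a'| + |γ| * |c'|) := by gcongr
      _ = r * |a'| + r * |γ| * |c'| := by ring
      _ ≤ (5 * d + 3 * (s * |c'|)) + 32 * s * |c'| := by gcongr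
      _ = _ := by ring
  have h5 : 0 ≤ s * |c'| := by positivity
  rcases le_or_gt (1 / 2) |b'| with h | h
  · have h6 : r * |β| * (1 / 2) ≤ r * (|β| * |b'|) := by
      have : r * |β| * (1 / 2) ≤ r * |β| * |b'| := by gcongr
      linarith
    linarith
  · have h6 : 1 / 2 ≤ |c'| := by
      by_contra hc
      push Not at hc
      have e1 := sq_abs a'
      have e2 := sq_abs b'
      have e3 := sq_abs c'
      nlinarith [abs_nonneg a', abs_nonneg b', abs_nonneg c']
    have h7 : s * (1 / 2) ≤ s * |c'| := by gcongr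
    linarith

theorem alg_two {α β γ a' b' c' : ℝ} (h1 : α ^ 2 + β ^ 2 + γ ^ 2 = 1)
    (h2 : a' ^ 2 + b' ^ 2 + c' ^ 2 = 1) (h3 : α * a' + β * b' + γ * c' = 0) :
    |β| ≤ 3 * |a'| ∨ |β| ≤ 3 * |c'| := by
  by_contra hcon
  push Not at hcon
  obtain ⟨h4, h5⟩ := hcon
  have h6 : 9 * a' ^ 2 < β ^ 2 := by
    have := abs_nonneg a'
    rw [← sq_abs a', ← sq_abs β]; nlinarith
  have h7 : 9 * c' ^ 2 < β ^ 2 := by
    have := abs_nonneg c'
    rw [← sq_abs c', ← sq_abs β]; nlinarith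
  have h8 : (β * b') ^ 2 ≤ a' ^ 2 + c' ^ 2 := by
    have e1 : β * b' = -(α * a' + γ * c') := by linarith
    rw [e1, neg_sq]
    have h9 : (α * a' + γ * c') ^ 2 ≤ (α ^ 2 + γ ^ 2) * (a' ^ 2 + c' ^ 2) := by
      nlinarith [sq_nonneg (α * c' - γ * a')]
    have h10 : (α ^ 2 + γ ^ 2) * (a' ^ 2 + c' ^ 2) ≤ 1 * (a' ^ 2 + c' ^ 2) := by
      apply mul_le_mul_of_nonneg_right _ (by positivity)
      nlinarith [sq_nonneg β]
    linarith
  have hβ1 : β ^ 2 ≤ 1 := by nlinarith [sq_nonneg α, sq_nonneg γ]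
  have hβ0 : 0 < β ^ 2 := by nlinarith [sq_nonneg a']
  have h11 : β ^ 2 * b' ^ 2 < β ^ 2 * (2 / 9) := by
    rw [mul_pow] at h8; linarith
  have h12 : b' ^ 2 < 2 / 9 := lt_of_mul_lt_mul_left h11 hβ0.le
  nlinarith

theorem cp_dir {r s d : ℝ} (hr : 0 < r) {e n e' n' y : E 3} (he : ‖e‖ = 1)
    (he' : ‖e'‖ = 1) (hy : y ∈ CP r s d e n) (hy' : y ∈ CP r s d e' n') :
    ∃ ε : ℝ, (ε = 1 ∨ ε = -1) ∧ ‖e' - ε • e‖ ≤ 32 * s / r := by
  obtain ⟨hy1, hy2, -, hy4⟩ := hy
  obtain ⟨-, -, -, hy4'⟩ := hy'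
  have hs0 : 0 ≤ s := (norm_nonneg _).trans hy4
  rcases le_or_gt s (r / 16) with hs | hs
  · set a : ℝ := inner ℝ y e with ha
    set a' : ℝ := inner ℝ y e' with ha'
    have h1 : ‖a • e - a' • e'‖ ≤ 2 * s := by
      have e1 : a • e - a' • e' = (y - a' • e') - (y - a • e) := by abel
      rw [e1]
      exact (norm_sub_le _ _).trans (by linarith)
    have hae : ‖a • e‖ = |a| := by rw [norm_smul, he, mul_one, Real.norm_eq_abs]
    have hae' : ‖a' • e'‖ = |a'| := by rw [norm_smul, he', mul_one, Real.norm_eq_abs]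
    have h2 : |(|a| - |a'|)| ≤ 2 * s := by
      rw [← hae, ← hae']
      exact (abs_norm_sub_norm_le _ _).trans h1
    have h3 : 7 * r / 16 ≤ |a'| := by
      have h4 : ‖y‖ ≤ ‖y - a' • e'‖ + ‖a' • e'‖ := by
        calc ‖y‖ = ‖(y - a' • e') + a' • e'‖ := by rw [sub_add_cancel]
          _ ≤ _ := norm_add_le _ _
      rw [hae'] at h4
      linarith
    have ha'0 : 0 < |a'| := by linarith
    have key : ∃ ε : ℝ, (ε = 1 ∨ ε = -1) ∧ |a - ε * a'| ≤ 2 * s := by
      rcases le_total 0 a with p | p <;> rcases le_total 0 a' with q | q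
      · refine ⟨1, Or.inl rfl, ?_⟩
        rw [abs_of_nonneg p, abs_of_nonneg q] at h2
        simpa using h2
      · refine ⟨-1, Or.inr rfl, ?_⟩
        rw [abs_of_nonneg p, abs_of_nonpos q] at h2
        simpa using h2
      · refine ⟨-1, Or.inr rfl, ?_⟩
        rw [abs_of_nonpos p, abs_of_nonneg q] at h2
        have e1 : a - -1 * a' = -(-a - a') := by ring
        rw [e1, abs_neg]
        exact h2
      · refine ⟨1, Or.inl rfl, ?_⟩
        rw [abs_of_nonpos p, abs_of_nonpos q] at h2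
        have e1 : a - 1 * a' = -(-a - -a') := by ring
        rw [e1, abs_neg]
        exact h2
    obtain ⟨ε, hε, h5⟩ := key
    refine ⟨ε, hε, ?_⟩
    have h6 : |a'| * ‖e' - ε • e‖ ≤ 4 * s := by
      calc |a'| * ‖e' - ε • e‖ = ‖a' • (e' - ε • e)‖ := by rw [norm_smul, Real.norm_eq_abs]
        _ = ‖(a • e - a' • e') - (a - ε * a') • e‖ := by
            rw [← norm_neg]
            congr 1
            rw [smul_sub, sub_smul, smul_smul, mul_comm a' ε]
            abel
        _ ≤ ‖a • e - a' • e'‖ + ‖(a - ε * a') • e‖ := norm_sub_le _ _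
        _ ≤ 2 * s + 2 * s := by
            rw [norm_smul (a - ε * a'), he, mul_one, Real.norm_eq_abs]
            exact add_le_add h1 h5
        _ = 4 * s := by ring
    rw [le_div_iff₀ hr]
    have h7 : 7 * r / 16 * ‖e' - ε • e‖ ≤ |a'| * ‖e' - ε • e‖ := by gcongr
    nlinarith
  · refine ⟨1, Or.inl rfl, ?_⟩
    have h1 : ‖e' - (1:ℝ) • e‖ ≤ 2 := by
      rw [one_smul]
      calc ‖e' - e‖ ≤ ‖e'‖ + ‖e‖ := norm_sub_le _ _
        _ = 2 := by rw [he, he']; norm_num
    have h2 : 2 ≤ 32 * s / r := by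
      rw [le_div_iff₀ hr]; linarith
    linarith

theorem norm_sq_coord (b : OrthonormalBasis (Fin 3) ℝ (E 3)) (y : E 3) :
    (inner ℝ y (b 0) : ℝ) ^ 2 + (inner ℝ y (b 1) : ℝ) ^ 2 + (inner ℝ y (b 2) : ℝ) ^ 2
      = ‖y‖ ^ 2 := by
  have h := b.sum_sq_norm_inner_left y
  simp only [Fin.sum_univ_three, Real.norm_eq_abs, sq_abs] at h
  exact h

theorem inner_coord (b : OrthonormalBasis (Fin 3) ℝ (E 3)) (y z : E 3) :
    (inner ℝ y (b 0) : ℝ) * inner ℝ z (b 0) + inner ℝ y (b 1) * inner ℝ z (b 1) +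
      inner ℝ y (b 2) * inner ℝ z (b 2) = inner ℝ y z := by
  have h := b.sum_inner_mul_inner y z
  simp only [Fin.sum_univ_three] at h
  rw [← h, real_inner_comm (b 0) z, real_inner_comm (b 1) z, real_inner_comm (b 2) z]

/-- The volume of the intersection of two conical pieces. -/
theorem pair_volume {r s d : ℝ} (hr : 0 < r) (hd : 0 < d) (hds : d ≤ s) {e n e' n' : E 3}
    (he : ‖e‖ = 1) (hn : ‖n‖ = 1) (hen : inner ℝ e n = (0:ℝ)) (he' : ‖e'‖ = 1) (hn' : ‖n'‖ = 1)
    (hen' : inner ℝ e' n' = (0:ℝ)) (hne : (CP r s d e n ∩ CP r s d e' n').Nonempty) :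
    volume (CP r s d e n ∩ CP r s d e' n') ≤
      ENNReal.ofReal (2240 * (r * d ^ 2 * s) / (r * |inner ℝ e' n| + d)) := by
  obtain ⟨b, hb0, hb1⟩ := exists_basis he hn hen
  set β : ℝ := inner ℝ e' n with hβ
  set α : ℝ := inner ℝ e' e with hα
  set γ : ℝ := inner ℝ e' (b 2) with hγ
  set a' : ℝ := inner ℝ n' e with ha'
  set b' : ℝ := inner ℝ n' n with hb'
  set c' : ℝ := inner ℝ n' (b 2) with hc'
  have h1 : α ^ 2 + β ^ 2 + γ ^ 2 = 1 := by
    have := norm_sq_coord b e'
    rw [hb0, hb1, he'] at this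
    simpa using this
  have h2 : a' ^ 2 + b' ^ 2 + c' ^ 2 = 1 := by
    have := norm_sq_coord b n'
    rw [hb0, hb1, hn'] at this
    simpa using this
  have h3 : α * a' + β * b' + γ * c' = 0 := by
    have := inner_coord b e' n'
    rw [hb0, hb1, hen'] at this
    exact this
  have hyn : ∀ y : E 3, (inner ℝ y n' : ℝ) = inner ℝ y e * a' + inner ℝ y n * b' +
      inner ℝ y (b 2) * c' := by
    intro y
    have := inner_coord b y n'
    rw [hb0, hb1] at this
    exact this.symm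
  have hE : ∀ y ∈ CP r s d e n, |(inner ℝ y e : ℝ)| ≤ 2 * r := by
    rintro y ⟨-, h, -, -⟩
    have := abs_real_inner_le_norm y e
    rw [he, mul_one] at this
    linarith
  have hM : ∀ y ∈ CP r s d e n, |(inner ℝ y (b 2) : ℝ)| ≤ s := by
    rintro y ⟨-, -, -, h⟩
    have h4 : (inner ℝ y (b 2) : ℝ) = inner ℝ (y - (inner ℝ y e : ℝ) • e) (b 2) := by
      rw [inner_sub_left, real_inner_smul_left, ← hb0, b.inner_eq_zero (by decide : (0:Fin 3) ≠ 2)]
      ring
    rw [h4]
    refine (abs_real_inner_le_norm _ _).trans ?_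
    rw [b.norm_eq_one, mul_one]
    exact h
  have hM2 : ∀ y ∈ CP r s d e n, |(inner ℝ y (b 2) : ℝ)| ≤ 2 * r := by
    rintro y ⟨-, h, -, -⟩
    have := abs_real_inner_le_norm y (b 2)
    rw [b.norm_eq_one, mul_one] at this
    linarith
  have hN : ∀ y ∈ CP r s d e n, |(inner ℝ y n : ℝ)| ≤ d := fun y h => h.2.2.1
  have hN' : ∀ y ∈ CP r s d e' n', |(inner ℝ y e * a' + inner ℝ y n * b' +
      inner ℝ y (b 2) * c' : ℝ)| ≤ d := by
    rintro y ⟨-, -, h, -⟩
    rw [← hyn]; exact h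
  set I := CP r s d e n ∩ CP r s d e' n' with hI
  -- volume through the last coordinate
  have hvc : c' ≠ 0 → volume I ≤ ENNReal.ofReal (8 * (2 * r) * d * d / |c'|) := by
    intro hc
    refine (measure_mono ?_).trans (volume_slab b (A := 2 * r) (B := d) (D := d) (c0 := a')
      (c1 := b') (by positivity) hd.le hc)
    rintro y ⟨hy, hy'⟩
    rw [Set.mem_ofPred_eq, hb0, hb1]
    refine ⟨hE y hy, hN y hy, ?_⟩
    have h5 := hN' y hy'
    have e1 : a' * inner ℝ y e + b' * inner ℝ y n + c' * inner ℝ y (b 2) =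
      inner ℝ y e * a' + inner ℝ y n * b' + inner ℝ y (b 2) * c' := by ring
    rw [e1]; exact h5
  have hva : a' ≠ 0 → volume I ≤ ENNReal.ofReal (8 * (2 * r) * d * d / |a'|) := by
    intro hc
    refine (measure_mono ?_).trans (volume_slab (b.reindex (Equiv.swap 0 2)) (A := 2 * r) (B := d)
      (D := d) (c0 := c') (c1 := b') (by positivity) hd.le hc)
    rintro y ⟨hy, hy'⟩
    have e0 : (b.reindex (Equiv.swap 0 2)) 0 = b 2 := by simp
    have e1 : (b.reindex (Equiv.swap 0 2)) 1 = n := by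
      rw [← hb1]; simp [Equiv.swap_apply_of_ne_of_ne]
    have e2 : (b.reindex (Equiv.swap 0 2)) 2 = e := by rw [← hb0]; simp
    rw [Set.mem_ofPred_eq, e0, e1, e2]
    refine ⟨hM2 y hy, hN y hy, ?_⟩
    have h5 := hN' y hy'
    have e1 : c' * inner ℝ y (b 2) + b' * inner ℝ y n + a' * inner ℝ y e =
      inner ℝ y e * a' + inner ℝ y n * b' + inner ℝ y (b 2) * c' := by ring
    rw [e1]; exact h5
  have hs0 : 0 < s := hd.trans_le hds
  have hden : 0 < r * |β| + d := by positivity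
  rcases le_or_gt s (r / 16) with hs | hs
  · obtain ⟨y, hy, hy'⟩ := hne
    obtain ⟨ε, hε, hdir⟩ := cp_dir hr he he' hy hy'
    have hβ' : |β| ≤ 32 * s / r := by
      have e1 : β = inner ℝ (e' - ε • e) n := by
        rw [inner_sub_left, real_inner_smul_left, hen, mul_zero, sub_zero]
      rw [e1]
      refine (abs_real_inner_le_norm _ _).trans ?_
      rw [hn, mul_one]; exact hdir
    have hγ' : |γ| ≤ 32 * s / r := by
      have e1 : γ = inner ℝ (e' - ε • e) (b 2) := by
        rw [inner_sub_left, real_inner_smul_left, ← hb0,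
          b.inner_eq_zero (by decide : (0:Fin 3) ≠ 2), mul_zero, sub_zero]
      rw [e1]
      refine (abs_real_inner_le_norm _ _).trans ?_
      rw [b.norm_eq_one, mul_one]; exact hdir
    have hσ : 7 * r / 16 ≤ |(inner ℝ y e : ℝ)| := by
      have h4 : ‖y‖ ≤ ‖y - (inner ℝ y e : ℝ) • e‖ + ‖(inner ℝ y e : ℝ) • e‖ := by
        calc ‖y‖ = ‖(y - (inner ℝ y e : ℝ) • e) + (inner ℝ y e : ℝ) • e‖ := by rw [sub_add_cancel]
          _ ≤ _ := norm_add_le _ _
      rw [norm_smul, he, mul_one, Real.norm_eq_abs] at h4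
      have h5 := hy.1
      have h6 := hy.2.2.2
      linarith
    have key := alg_one hr hds hs h1 h2 h3 hσ (hN y hy) (hM y hy) (hN' y hy') hβ' hγ'
    rcases le_or_gt (s * |c'|) d with hc | hc
    · have hvol : volume I ≤ ENNReal.ofReal (8 * (2 * r) * d * s) := by
        refine (measure_mono ?_).trans (volume_box b (A := 2 * r) (B := d) (D := s)
          (by positivity) hd.le)
        rintro y ⟨hy, hy'⟩
        rw [Set.mem_ofPred_eq, hb0, hb1]
        exact ⟨hE y hy, hN y hy, hM y hy⟩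
      refine hvol.trans (ENNReal.ofReal_le_ofReal ?_)
      rw [le_div_iff₀ hden]
      have h6 : r * |β| + d ≤ 140 * d := by linarith
      calc 8 * (2 * r) * d * s * (r * |β| + d) ≤ 8 * (2 * r) * d * s * (140 * d) := by gcongr
        _ = _ := by ring
    · have hc0 : 0 < |c'| := by
        rcases (abs_nonneg c').eq_or_lt with h | h
        · rw [← h, mul_zero] at hc; linarith
        · exact h
      refine (hvc (abs_pos.1 hc0)).trans (ENNReal.ofReal_le_ofReal ?_)
      rw [div_le_div_iff₀ hc0 hden]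
      have h6 : r * |β| + d ≤ 140 * (s * |c'|) := by linarith
      calc 8 * (2 * r) * d * d * (r * |β| + d) ≤ 8 * (2 * r) * d * d * (140 * (s * |c'|)) := by
            gcongr
        _ = _ := by ring
  · rcases le_or_gt (r * |β|) d with hc | hc
    · have hvol : volume I ≤ ENNReal.ofReal (8 * (2 * r) * d * (2 * r)) := by
        refine (measure_mono ?_).trans (volume_box b (A := 2 * r) (B := d) (D := 2 * r)
          (by positivity) hd.le)
        rintro y ⟨hy, hy'⟩
        rw [Set.mem_ofPred_eq, hb0, hb1]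
        exact ⟨hE y hy, hN y hy, hM2 y hy⟩
      refine hvol.trans (ENNReal.ofReal_le_ofReal ?_)
      rw [le_div_iff₀ hden]
      have h6 : r * |β| + d ≤ 2 * d := by linarith
      calc 8 * (2 * r) * d * (2 * r) * (r * |β| + d)
          ≤ 8 * (2 * r) * d * (2 * (16 * s)) * (2 * d) := by gcongr; linarith
        _ = 1024 * (r * d ^ 2 * s) := by ring
        _ ≤ _ := by
          have : 0 ≤ r * d ^ 2 * s := by positivity
          linarith
    · have hβ0 : 0 < |β| := by
        rcases (abs_nonneg β).eq_or_lt with h | h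
        · rw [← h, mul_zero] at hc; linarith
        · exact h
      have h6 : r * |β| + d ≤ 2 * (16 * s * |β|) := by
        have : r * |β| ≤ 16 * s * |β| := by gcongr; linarith
        linarith
      have hfin : ∀ c : ℝ, 0 < |c| → |β| ≤ 3 * |c| → volume I ≤
          ENNReal.ofReal (8 * (2 * r) * d * d / |c|) → volume I ≤
          ENNReal.ofReal (2240 * (r * d ^ 2 * s) / (r * |β| + d)) := by
        intro c hc0 hc1 hc2
        refine hc2.trans (ENNReal.ofReal_le_ofReal ?_)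
        rw [div_le_div_iff₀ hc0 hden]
        calc 8 * (2 * r) * d * d * (r * |β| + d) ≤ 8 * (2 * r) * d * d * (2 * (16 * s * (3 * |c|))) := by
              refine mul_le_mul_of_nonneg_left (h6.trans ?_) (by positivity)
              gcongr
          _ = 1536 * (r * d ^ 2 * s) * |c| := by ring
          _ ≤ _ := by
              have : 0 ≤ (r * d ^ 2 * s) * |c| := by positivity
              linarith
      rcases alg_two h1 h2 h3 with h | h
      · have h7 : 0 < |a'| := by linarith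
        exact hfin a' h7 h (hva (abs_pos.1 h7))
      · have h7 : 0 < |c'| := by linarith
        exact hfin c' h7 h (hvc (abs_pos.1 h7))

end Pool.Agent.TH970.Kr
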