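import Pool.Agent.TH970.Kr.L2

set_option autoImplicit false

/-!
# The part of a tube in a spherical shell
-/

open MeasureTheory Set Filter Topology ENNReal NNReal Metric

namespace Pool.Agent.TH970.Kr

open Pool.Agent.H742R2.Kk Pool.Agent.W767.Kc Pool.Agent.W767.Sd

/-- `G` dominates `F` along dilations by factors between `1` and `2`. -/
def RadE (F G : E 3 → ℝ≥0∞) : Prop := ∀ x : E 3, ∀ t ∈ Icc (1:ℝ) 2, F (t • x) ≤ G x

theorem pr_sub (e x y : E 3) : pr e (x - y) = pr e x - pr e y := by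
  rw [pr, pr, pr, inner_sub_left, sub_smul]; abel

theorem pr_smul (e y : E 3) (t : ℝ) : pr e (t • y) = t • pr e y := by
  rw [pr, pr, real_inner_smul_left, mul_smul, smul_sub]

theorem mem_cyl_pr {δ : ℝ} {e b y : E 3} (h : y ∈ cyl δ 1 e b) : ‖pr e y - pr e b‖ ≤ δ := by
  have h2 := h.2
  rw [← pr_sub]
  exact h2

theorem fibre_radial {δ σ : ℝ} (hδ : 0 < δ) (hσ : δ ≤ σ) {p z : E 3} (hp : σ ≤ ‖p‖ + δ) :
    volume {t : ℝ | t ∈ Icc (1:ℝ) 2 ∧ ‖t • z - p‖ ≤ δ} ≤ ENNReal.ofReal (24 * δ / σ) := by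
  have hσ0 : 0 < σ := hδ.trans_le hσ
  set S := {t : ℝ | t ∈ Icc (1:ℝ) 2 ∧ ‖t • z - p‖ ≤ δ} with hS
  rcases S.eq_empty_or_nonempty with h0 | ⟨t0, ht0⟩
  · rw [h0, measure_empty]; exact zero_le
  rcases lt_or_ge ‖p‖ (2 * δ) with h | h
  · have hsub : S ⊆ Icc (1:ℝ) 2 := fun t ht => ht.1
    refine (measure_mono hsub).trans ?_
    rw [Real.volume_Icc]
    apply ENNReal.ofReal_le_ofReal
    rw [le_div_iff₀ hσ0]
    linarith
  · have hz : σ / 6 ≤ ‖z‖ := by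
      have h1 : ‖p‖ ≤ ‖t0 • z‖ + ‖t0 • z - p‖ := by
        calc ‖p‖ = ‖t0 • z - (t0 • z - p)‖ := by congr 1; abel
          _ ≤ _ := norm_sub_le _ _
      have h2 := ht0.2
      rw [norm_smul, Real.norm_of_nonneg (by linarith [ht0.1.1])] at h1
      have h3 : t0 * ‖z‖ ≤ 2 * ‖z‖ := by gcongr; exact ht0.1.2
      linarith
    have hz0 : 0 < ‖z‖ := by linarith [show 0 < σ / 6 by positivity]
    have hsub : S ⊆ Icc (t0 - 12 * δ / σ) (t0 + 12 * δ / σ) := by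
      intro t ht
      have h1 : |t - t0| * ‖z‖ ≤ 2 * δ := by
        calc |t - t0| * ‖z‖ = ‖(t - t0) • z‖ := by rw [norm_smul, Real.norm_eq_abs]
          _ = ‖(t • z - p) - (t0 • z - p)‖ := by rw [sub_smul]; congr 1; abel
          _ ≤ ‖t • z - p‖ + ‖t0 • z - p‖ := norm_sub_le _ _
          _ ≤ 2 * δ := by linarith [ht.2, ht0.2]
      have h2 : |t - t0| * (σ / 6) ≤ 2 * δ := by
        refine le_trans ?_ h1
        gcongr
      have h3 : |t - t0| ≤ 12 * δ / σ := by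
        rw [le_div_iff₀ hσ0]; linarith
      rw [abs_le] at h3
      exact ⟨by linarith [h3.1], by linarith [h3.2]⟩
    refine (measure_mono hsub).trans ?_
    rw [Real.volume_Icc]
    apply ENNReal.ofReal_le_ofReal
    apply le_of_eq
    ring

theorem shadow_mem {δ r σ t : ℝ} {e b n y : E 3}
    (hp2 : ‖pr e b‖ + δ ≤ 2 * σ) (hn : ‖n‖ = 1) (hen : inner ℝ e n = (0:ℝ))
    (hpn : inner ℝ (pr e b) n = (0:ℝ)) (ht : t ∈ Icc (1:ℝ) 2) (hy : t • y ∈ cyl δ 1 e b)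
    (h1 : r ≤ ‖t • y‖) (h2 : ‖t • y‖ ≤ 2 * r) : y ∈ CP r (2 * σ) δ e n := by
  have ht0 : 0 < t := by linarith [ht.1]
  rw [norm_smul, Real.norm_of_nonneg ht0.le] at h1 h2
  have hpr := mem_cyl_pr hy
  rw [pr_smul] at hpr
  refine ⟨?_, ?_, ?_, ?_⟩
  · have h3 : t * ‖y‖ ≤ 2 * ‖y‖ := by gcongr; exact ht.2
    linarith
  · have h3 : 1 * ‖y‖ ≤ t * ‖y‖ := by gcongr; exact ht.1
    linarith
  · have e1 : (inner ℝ (t • pr e y - pr e b) n : ℝ) = t * inner ℝ y n := by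
      rw [inner_sub_left, hpn, sub_zero, real_inner_smul_left, pr, inner_sub_left,
        real_inner_smul_left, hen, mul_zero, sub_zero]
    have h3 : |(inner ℝ (t • pr e y - pr e b) n : ℝ)| ≤ δ := by
      refine (abs_real_inner_le_norm _ _).trans ?_
      rw [hn, mul_one]; exact hpr
    rw [e1, abs_mul, abs_of_pos ht0] at h3
    have h4 : 1 * |(inner ℝ y n : ℝ)| ≤ t * |(inner ℝ y n : ℝ)| := by gcongr; exact ht.1
    linarith
  · change ‖pr e y‖ ≤ 2 * σ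
    have h3 : ‖t • pr e y‖ ≤ ‖t • pr e y - pr e b‖ + ‖pr e b‖ := by
      calc ‖t • pr e y‖ = ‖(t • pr e y - pr e b) + pr e b‖ := by rw [sub_add_cancel]
        _ ≤ _ := norm_add_le _ _
    rw [norm_smul, Real.norm_of_nonneg ht0.le] at h3
    have h4 : 1 * ‖pr e y‖ ≤ t * ‖pr e y‖ := by gcongr; exact ht.1
    linarith

theorem integral_shadow {δ r σ : ℝ} (hδ : 0 < δ) (hσ : δ ≤ σ) {h H : E 3 → ℝ≥0∞}
    (hh : Measurable h) (hH : Measurable H) (hhH : RadE h H) {e b n : E 3}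
    (hp1 : σ ≤ ‖pr e b‖ + δ) (hp2 : ‖pr e b‖ + δ ≤ 2 * σ) (hn : ‖n‖ = 1)
    (hen : inner ℝ e n = (0:ℝ)) (hpn : inner ℝ (pr e b) n = (0:ℝ)) :
    ∫⁻ x in cyl δ 1 e b ∩ {y | r ≤ ‖y‖ ∧ ‖y‖ ≤ 2 * r}, h x ≤
      8 * ENNReal.ofReal (24 * δ / σ) * ∫⁻ y in CP r (2 * σ) δ e n, H y := by
  set A : Set (E 3) := cyl δ 1 e b ∩ {y | r ≤ ‖y‖ ∧ ‖y‖ ≤ 2 * r} with hA
  have c1 : Continuous (fun y : E 3 => ‖y‖) := by fun_prop
  have hAm : MeasurableSet A := (isClosed_cyl δ 1 e b).measurableSet.inter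
    ((isClosed_le continuous_const c1).inter (isClosed_le c1 continuous_const)).measurableSet
  have hCm : MeasurableSet (CP r (2 * σ) δ e n) := (isClosed_CP _ _ _ _ _).measurableSet
  have hsm : Measurable (fun q : ℝ × E 3 => q.1 • q.2) := measurable_fst.smul measurable_snd
  set J : ℝ → E 3 → ℝ≥0∞ := fun t y => A.indicator 1 (t • y) * H y with hJ
  have hJm : Measurable (Function.uncurry J) :=
    ((measurable_one.indicator hAm).comp hsm).mul (hH.comp measurable_snd)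
  have h1 : ∀ t ∈ Icc (1:ℝ) 2, ∫⁻ x in A, h x ≤ 8 * ∫⁻ y, J t y := by
    intro t ht
    have ht0 : 0 < t := by linarith [ht.1]
    have h2 := lintegral_comp_smulV (f := A.indicator h) (hh.indicator hAm) ht0.ne'
    have h3 : ∫⁻ x, A.indicator h x = ENNReal.ofReal (t ^ 3) * ∫⁻ y, A.indicator h (t • y) := by
      rw [h2, ← mul_assoc, ← ENNReal.ofReal_mul (by positivity)]
      have e1 : Module.finrank ℝ (E 3) = 3 := by simp
      rw [e1, abs_of_pos (by positivity), mul_inv_cancel₀ (by positivity), ENNReal.ofReal_one,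
        one_mul]
    rw [← lintegral_indicator hAm, h3]
    have h4 : ENNReal.ofReal (t ^ 3) ≤ 8 := by
      calc ENNReal.ofReal (t ^ 3) ≤ ENNReal.ofReal (2 ^ 3) := by
            apply ENNReal.ofReal_le_ofReal
            have := ht.2
            gcongr
        _ = 8 := by norm_num
    refine mul_le_mul' h4 (lintegral_mono fun y => ?_)
    simp only [hJ]
    by_cases hy : t • y ∈ A
    · rw [indicator_of_mem hy, indicator_of_mem hy]
      simpa using hhH y t ht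
    · rw [indicator_of_notMem hy]; exact zero_le
  have h2 : ∫⁻ x in A, h x ≤ ∫⁻ t in Icc (1:ℝ) 2, 8 * ∫⁻ y, J t y := by
    calc ∫⁻ x in A, h x = ∫⁻ _ in Icc (1:ℝ) 2, ∫⁻ x in A, h x := by
          rw [lintegral_const, Measure.restrict_apply_univ, Real.volume_Icc]
          norm_num
      _ ≤ _ := setLIntegral_mono' measurableSet_Icc h1
  refine h2.trans ?_
  have hJi : Measurable (fun t => ∫⁻ y, J t y) := hJm.lintegral_prod_right'
  rw [lintegral_const_mul _ hJi, mul_assoc]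
  gcongr 8 * ?_
  rw [lintegral_lintegral_swap (f := J) hJm.aemeasurable]
  rw [← lintegral_indicator hCm, ← lintegral_const_mul' _ _ ENNReal.ofReal_ne_top]
  apply lintegral_mono
  intro y
  simp only [hJ]
  have hm3 : Measurable (fun t : ℝ => A.indicator (1 : E 3 → ℝ≥0∞) (t • y)) :=
    (measurable_one.indicator hAm).comp (measurable_id.smul measurable_const)
  rw [lintegral_mul_const _ hm3]
  have hm4 : MeasurableSet {t : ℝ | t • y ∈ A} :=
    (measurable_id.smul measurable_const : Measurable (fun t : ℝ => t • y)) hAm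
  have h5 : ∫⁻ t in Icc (1:ℝ) 2, A.indicator (1 : E 3 → ℝ≥0∞) (t • y) =
      volume ({t : ℝ | t • y ∈ A} ∩ Icc (1:ℝ) 2) := by
    rw [← Measure.restrict_apply hm4, ← lintegral_indicator_one hm4]
    rfl
  rw [h5]
  by_cases hy : y ∈ CP r (2 * σ) δ e n
  · rw [indicator_of_mem hy]
    gcongr
    refine (measure_mono ?_).trans (fibre_radial hδ hσ (z := pr e y) hp1)
    rintro t ⟨ht1, ht2⟩
    refine ⟨ht2, ?_⟩
    have := mem_cyl_pr ht1.1
    rw [pr_smul] at this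
    exact this
  · have hemp : {t : ℝ | t • y ∈ A} ∩ Icc (1:ℝ) 2 = ∅ := by
      rw [eq_empty_iff_forall_notMem]
      rintro t ⟨ht1, ht2⟩
      exact hy (shadow_mem hp2 hn hen hpn ht2 ht1.1 ht1.2.1 ht1.2.2)
    rw [hemp, measure_empty, zero_mul]
    exact zero_le

theorem holder_three {α : Type*} [MeasurableSpace α] (μ : Measure α) {g : α → ℝ≥0∞}
    (hg : AEMeasurable g μ) :
    (∫⁻ x, g x ∂μ) ^ 3 ≤ μ univ * (∫⁻ x, g x ^ (3 / 2 : ℝ) ∂μ) ^ 2 := by
  have h := holder_m μ hg 1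
  have e1 : (((1:ℕ):ℝ) + 2) / (((1:ℕ):ℝ) + 1) = 3 / 2 := by norm_num
  rw [e1] at h
  exact h

theorem volume_part {δ r : ℝ} (hδ : 0 < δ) {e b : E 3} (he : ‖e‖ = 1) :
    volume (cyl δ 1 e b ∩ {y | r ≤ ‖y‖ ∧ ‖y‖ ≤ 2 * r}) ≤
      ENNReal.ofReal (min (4 * r) 2) * (ENNReal.ofReal δ ^ 2 * volume (closedBall (0 : E 2) 1)) := by
  have hvol : volume (closedBall (0 : E 2) δ) =
      ENNReal.ofReal δ ^ 2 * volume (closedBall (0 : E 2) 1) := by
    rw [Measure.addHaar_closedBall' volume (0 : E 2) hδ.le, ENNReal.ofReal_pow hδ.le]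
    simp
  rw [← hvol]
  have hA : volume (cyl δ 1 e b ∩ {y | r ≤ ‖y‖ ∧ ‖y‖ ≤ 2 * r}) ≤
      ENNReal.ofReal (4 * r) * volume (closedBall (0 : E 2) δ) := by
    have hsub : cyl δ 1 e b ∩ {y | r ≤ ‖y‖ ∧ ‖y‖ ≤ 2 * r} ⊆
        {p : E 3 | -(2 * r) ≤ inner ℝ p e ∧ inner ℝ p e ≤ 2 * r ∧
          ‖(p - b) - (inner ℝ (p - b) e : ℝ) • e‖ ≤ δ} := by
      rintro y ⟨⟨_, hy2⟩, _, hy4⟩
      have h1 := abs_real_inner_le_norm y e
      rw [he, mul_one] at h1
      have h2 := abs_le.1 (h1.trans hy4)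
      exact ⟨h2.1, h2.2, hy2⟩
    refine (measure_mono hsub).trans ?_
    rw [volume_piece _ _ _ _ _ he]
    apply le_of_eq
    congr 2
    ring
  have hB : volume (cyl δ 1 e b ∩ {y | r ≤ ‖y‖ ∧ ‖y‖ ≤ 2 * r}) ≤
      ENNReal.ofReal 2 * volume (closedBall (0 : E 2) δ) := by
    have hsub : cyl δ 1 e b ∩ {y | r ≤ ‖y‖ ∧ ‖y‖ ≤ 2 * r} ⊆
        {p : E 3 | (inner ℝ b e : ℝ) - 1 ≤ inner ℝ p e ∧ inner ℝ p e ≤ (inner ℝ b e : ℝ) + 1 ∧
          ‖(p - b) - (inner ℝ (p - b) e : ℝ) • e‖ ≤ δ} := by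
      rintro y ⟨⟨hy1, hy2⟩, _⟩
      rw [inner_sub_left, abs_le] at hy1
      exact ⟨by linarith [hy1.1], by linarith [hy1.2], hy2⟩
    refine (measure_mono hsub).trans ?_
    rw [volume_piece _ _ _ _ _ he]
    apply le_of_eq
    congr 2
    ring
  rcases min_cases (4 * r) 2 with h | h
  · rw [h.1]; exact hA
  · rw [h.1]; exact hB

/-- The volume of the unit disc. -/
noncomputable def V2 : ℝ := (volume (closedBall (0 : E 2) 1)).toReal

theorem V2_eq : volume (closedBall (0 : E 2) 1) = ENNReal.ofReal V2 :=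
  (ENNReal.ofReal_toReal measure_closedBall_lt_top.ne).symm

theorem V2_nonneg : 0 ≤ V2 := ENNReal.toReal_nonneg

/-- The part of the maximal function in a shell, for lines of given distance to the origin. -/
theorem shell {δ r σ : ℝ} (hδ : 0 < δ) (hr : 0 < r) (hσ : δ ≤ σ) {F G : E 3 → ℝ≥0∞}
    (hF : Measurable F) (hG : Measurable G) (hFG : RadE F G) :
    ∃ M : E 3 → ℝ≥0∞, Measurable M ∧
      (∀ e b : E 3, ‖e‖ = 1 → σ ≤ ‖pr e b‖ + δ → ‖pr e b‖ + δ ≤ 2 * σ →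
        ((ENNReal.ofReal δ ^ 2)⁻¹ *
          ∫⁻ y in cyl δ 1 e b ∩ {y | r ≤ ‖y‖ ∧ ‖y‖ ≤ 2 * r}, F y) ^ 3 ≤ M e) ∧
      ∫⁻ x in closedBall (0 : E 3) 1, M (‖x‖⁻¹ • x) ≤
        ENNReal.ofReal (36864 * V2 * 36700160 * (min (4 * r) 2 / r) *
          Real.log (1 + r / (2 * δ))) * ∫⁻ y, G y ^ 3 := by
  have hσ0 : 0 < σ := hδ.trans_le hσ
  have hGm : Measurable (fun y => G y ^ (3 / 2 : ℝ)) := hG.pow_const _
  obtain ⟨M0, hM0m, hM0, hM0i⟩ := cone_L2 (r := r) (s := 2 * σ) (d := δ) hr hδ (by linarith) hGm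
  have hmin : 0 ≤ min (4 * r) 2 := le_min (by positivity) (by norm_num)
  have hV := V2_nonneg
  refine ⟨fun e => ENNReal.ofReal (36864 * V2 * min (4 * r) 2 / (δ ^ 2 * σ ^ 2)) * M0 e,
    hM0m.const_mul _, ?_, ?_⟩
  · intro e b he hp1 hp2
    obtain ⟨n, hn, hen, hpn⟩ := exists_normal (p := pr e b) he (inner_pr he)
    set A : Set (E 3) := cyl δ 1 e b ∩ {y | r ≤ ‖y‖ ∧ ‖y‖ ≤ 2 * r} with hA
    have hRad : RadE (fun y => F y ^ (3 / 2 : ℝ)) (fun y => G y ^ (3 / 2 : ℝ)) :=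
      fun x t ht => ENNReal.rpow_le_rpow (hFG x t ht) (by norm_num)
    have h1 := integral_shadow (r := r) hδ hσ (hF.pow_const (3 / 2 : ℝ)) hGm hRad hp1 hp2 hn hen hpn
    have h2 := holder_three (volume.restrict A) (g := F) hF.aemeasurable
    rw [Measure.restrict_apply_univ] at h2
    have h3 := volume_part (r := r) (b := b) hδ he
    rw [V2_eq] at h3
    have h4 := hM0 e n he hn hen
    set X : ℝ≥0∞ := ∫⁻ y in CP r (2 * σ) δ e n, G y ^ (3 / 2 : ℝ) with hX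
    set P : ℝ≥0∞ := ENNReal.ofReal δ with hP
    have hP0 : P ≠ 0 := by simpa [hP] using hδ
    have hPt : P ≠ ∞ := ENNReal.ofReal_ne_top
    calc ((P ^ 2)⁻¹ * ∫⁻ y in A, F y) ^ 3 = ((P ^ 2)⁻¹) ^ 3 * (∫⁻ y in A, F y) ^ 3 := mul_pow _ _ _
      _ ≤ ((P ^ 2)⁻¹) ^ 3 * ((ENNReal.ofReal (min (4 * r) 2) * (P ^ 2 * ENNReal.ofReal V2)) *
          (8 * ENNReal.ofReal (24 * δ / σ) * X) ^ 2) := by
          gcongr
          exact h2.trans (mul_le_mul' h3 (pow_le_pow_left' h1 2))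
      _ = (((P ^ 2)⁻¹) ^ 3 * P ^ 2 * ENNReal.ofReal (min (4 * r) 2) * ENNReal.ofReal V2 *
          (8 * ENNReal.ofReal (24 * δ / σ)) ^ 2) * X ^ 2 := by ring
      _ = ENNReal.ofReal (36864 * V2 * min (4 * r) 2 / (δ ^ 2 * σ ^ 2)) * X ^ 2 := by
          congr 1
          have e8 : (8:ℝ≥0∞) = ENNReal.ofReal 8 := by simp
          rw [hP, e8, ← ENNReal.ofReal_pow hδ.le, ← ENNReal.ofReal_inv_of_pos (by positivity),
            ← ENNReal.ofReal_pow (by positivity), ← ENNReal.ofReal_mul (by positivity),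
            ← ENNReal.ofReal_mul (by positivity), ← ENNReal.ofReal_mul (by positivity),
            ← ENNReal.ofReal_mul (by norm_num), ← ENNReal.ofReal_pow (by positivity),
            ← ENNReal.ofReal_mul (by positivity)]
          congr 1
          field_simp
          ring
      _ ≤ _ := mul_le_mul' le_rfl h4
  · have hmd : Measurable (fun x : E 3 => ‖x‖⁻¹ • x) := measurable_norm.inv.smul measurable_id
    have hMc : Measurable (fun x : E 3 => M0 (‖x‖⁻¹ • x)) := hM0m.comp hmd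
    change ∫⁻ x in closedBall (0 : E 3) 1,
      ENNReal.ofReal (36864 * V2 * min (4 * r) 2 / (δ ^ 2 * σ ^ 2)) * M0 (‖x‖⁻¹ • x) ≤ _
    rw [lintegral_const_mul _ hMc]
    have e1 : ∀ y, (G y ^ (3 / 2 : ℝ)) ^ 2 = G y ^ 3 := by
      intro y
      rw [← ENNReal.rpow_natCast, ← ENNReal.rpow_mul, ← ENNReal.rpow_natCast]
      norm_num
    simp_rw [e1] at hM0i
    calc _ ≤ ENNReal.ofReal (36864 * V2 * min (4 * r) 2 / (δ ^ 2 * σ ^ 2)) *
          (ENNReal.ofReal (9175040 * (δ ^ 2 * (2 * σ) ^ 2 / r) * Real.log (1 + r / (2 * δ))) *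
            ∫⁻ y, G y ^ 3) := by gcongr
      _ = _ := by
          rw [← mul_assoc, ← ENNReal.ofReal_mul (by positivity)]
          congr 2
          field_simp
          ring

end Pool.Agent.TH970.Kr
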