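import Pool.Agent.TH970.Kr.Base3

set_option autoImplicit false

/-!
# The induction step for functions that are solid in all but the last three coordinates
-/

open MeasureTheory Set Filter Topology ENNReal NNReal Metric

namespace Pool.Agent.TH970.Kr

open Pool.Agent.H742R2.Kk Pool.Agent.W767.Kc Pool.Agent.W767.Sd

/-- `F` is even and nonincreasing in the absolute value of each coordinate but the last three. -/
def Solid3 {n : ℕ} (F : E n → ℝ≥0∞) : Prop :=
  ∀ x y : E n, (∀ i : Fin n, i.val + 3 < n → |y i| ≤ |x i|) →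
    (∀ i : Fin n, n ≤ i.val + 3 → y i = x i) → F x ≤ F y

/-- `G` dominates `F` along dilations of the last three coordinates. -/
def Rad3 {n : ℕ} (F G : E n → ℝ≥0∞) : Prop :=
  ∀ (x y : E n) (t : ℝ), 1 ≤ t → t ≤ 2 → (∀ i : Fin n, i.val + 3 < n → x i = y i) →
    (∀ i : Fin n, n ≤ i.val + 3 → x i = t * y i) → F x ≤ G y

theorem Solid3.gA {m : ℕ} {σ : ℝ} {F : E (m + 2) → ℝ≥0∞} (hF : Solid3 F) :
    Solid3 (gA σ F) := by
  intro x y h1 h2
  apply lintegral_mono
  intro w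
  apply hF
  · intro i
    refine Fin.cases ?_ (fun j => ?_) i
    · intro _; rw [ins_apply_zero, ins_apply_zero]
    · intro hj
      rw [ins_apply_succ, ins_apply_succ]
      apply h1
      simp only [Fin.val_succ] at hj
      omega
  · intro i
    refine Fin.cases ?_ (fun j => ?_) i
    · intro _; rw [ins_apply_zero, ins_apply_zero]
    · intro hj
      rw [ins_apply_succ, ins_apply_succ]
      apply h2
      simp only [Fin.val_succ] at hj
      omega

theorem Solid3.le_gA {m : ℕ} (hm : 2 ≤ m) {σ : ℝ} (hσ : 0 < σ) {F : E (m + 2) → ℝ≥0∞}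
    (hF : Solid3 F) {x : ℝ} (hx : σ ≤ |x|) (z : E (m + 1)) : F (ins x z) ≤ Pool.Agent.W767.Sd.gA σ F z := by
  have hle : ∀ w ∈ Icc (-σ) σ, F (ins x z) ≤ F (ins w z) := by
    intro w hw
    apply hF
    · intro i
      refine Fin.cases ?_ (fun j => ?_) i
      · intro _
        rw [ins_apply_zero, ins_apply_zero]
        exact (abs_le.2 hw).trans hx
      · intro _; rw [ins_apply_succ, ins_apply_succ]
    · intro i
      refine Fin.cases ?_ (fun j => ?_) i
      · intro h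
        simp only [Fin.val_zero] at h
        omega
      · intro _; rw [ins_apply_succ, ins_apply_succ]
  rw [Pool.Agent.W767.Sd.gA, Fib.lintegral_unif]
  have h1 : ∫⁻ _ in Icc (-σ) σ, F (ins x z) ≤ ∫⁻ w in Icc (-σ) σ, F (ins w z) :=
    setLIntegral_mono' measurableSet_Icc hle
  rw [lintegral_const, Measure.restrict_apply_univ, Real.volume_Icc] at h1
  have e : σ - -σ = 2 * σ := by ring
  rw [e] at h1
  calc F (ins x z) = (ENNReal.ofReal (2 * σ))⁻¹ * (F (ins x z) * ENNReal.ofReal (2 * σ)) := by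
        rw [mul_comm (F _), ← mul_assoc, ENNReal.inv_mul_cancel (by simpa using hσ)
          ENNReal.ofReal_ne_top, one_mul]
    _ ≤ _ := by gcongr

/-- The fibre integrals. -/
theorem fib_bound3 {m : ℕ} (hm : 2 ≤ m) {ρ : ℝ} (hρ0 : 0 < ρ) (hρ1 : ρ ≤ 1) {I0 : ℕ}
    (hI0 : 1 ≤ 2 ^ I0 * ρ) {F : E (m + 2) → ℝ≥0∞} (hF : Measurable F) (hS : Solid3 F)
    {e b : E (m + 2)} (he : ‖e‖ = 1) (he' : tl e ≠ 0) {i : ℕ} (hi : i ∈ Finset.range (I0 + 2)) :
    ((∀ x ∈ slab ρ I0 i, |x| ≤ 2 * sig ρ i) ∨ 1 ≤ sig ρ i) ∧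
    ∀ z, ∫⁻ x in {x | x ∈ slab ρ I0 i ∧ ins x z ∈ cyl ρ 1 e b}, F (ins x z) ≤
      ENNReal.ofReal (8 * ρ * min (1 / ‖tl e‖) (sig ρ i / ρ)) * gA (sig ρ i) F z := by
  have hi' : i ≤ I0 + 1 := by
    rw [Finset.mem_range] at hi; omega
  have hσ : 0 < sig ρ i := hρ0.trans_le (le_sig hρ0 i)
  have hr0 : 0 < ‖tl e‖ := norm_pos_iff.2 he'
  have hr1 : ‖tl e‖ ≤ 1 := by rw [← he]; exact norm_tl_le e
  have hR : (∀ x ∈ slab ρ I0 i, |x| ≤ 2 * sig ρ i) ∨ 1 ≤ sig ρ i := by
    rcases Nat.eq_zero_or_pos i with h0 | h0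
    · left
      intro x hx
      rw [h0] at hx ⊢
      have h1 : |x| ≤ ρ := by simpa [slab] using hx
      have := le_sig hρ0 0
      linarith
    · rcases Nat.lt_or_ge I0 i with h1 | h1
      · right
        have : i = I0 + 1 := by omega
        rw [this]
        simpa [sig] using hI0
      · left
        intro x hx
        have e : slab ρ I0 i = {x | sig ρ i < |x| ∧ |x| ≤ 2 * sig ρ i} := by
          unfold slab
          rw [if_neg (by omega), if_pos h1]
        rw [e] at hx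
        exact hx.2
  refine ⟨hR, ?_⟩
  intro z
  rcases Nat.eq_zero_or_pos i with h0 | h0
  · -- the core
    have hs : sig ρ i = ρ := by rw [h0]; simp [sig]
    have hsub : {x | x ∈ slab ρ I0 i ∧ ins x z ∈ cyl ρ 1 e b} ⊆ Icc (-ρ) ρ := by
      intro x hx
      have h1 : |x| ≤ ρ := by
        have := hx.1
        rw [h0] at this
        simpa [slab] using this
      exact abs_le.1 h1
    have h2 : ∫⁻ x in Icc (-ρ) ρ, F (ins x z) = ENNReal.ofReal (2 * ρ) * gA ρ F z := by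
      rw [gA, Fib.lintegral_unif, ← mul_assoc, ENNReal.mul_inv_cancel (by simpa using hρ0)
        ENNReal.ofReal_ne_top, one_mul]
    rw [hs]
    calc ∫⁻ x in {x | x ∈ slab ρ I0 i ∧ ins x z ∈ cyl ρ 1 e b}, F (ins x z)
        ≤ ∫⁻ x in Icc (-ρ) ρ, F (ins x z) := lintegral_mono_set hsub
      _ = ENNReal.ofReal (2 * ρ) * gA ρ F z := h2
      _ ≤ _ := by
        refine mul_le_mul' (ENNReal.ofReal_le_ofReal ?_) le_rfl
        have h3 : 1 ≤ min (1 / ‖tl e‖) (ρ / ρ) := by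
          apply le_min
          · rw [le_div_iff₀ hr0]; linarith
          · rw [div_self hρ0.ne']
        nlinarith
  · have hlt : ∀ x ∈ slab ρ I0 i, sig ρ i ≤ |x| := by
      intro x hx
      unfold slab at hx
      rw [if_neg (by omega)] at hx
      split_ifs at hx
      · exact hx.1.le
      · exact (show sig ρ i < |x| from hx).le
    have hins : Measurable (fun x : ℝ => ins x z) :=
      measurable_ins.comp (measurable_id.prodMk measurable_const)
    have hsm : MeasurableSet {x | x ∈ slab ρ I0 i ∧ ins x z ∈ cyl ρ 1 e b} :=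
      (measurableSet_slab ρ I0 i).inter (hins (isClosed_cyl ρ 1 e b).measurableSet)
    calc ∫⁻ x in {x | x ∈ slab ρ I0 i ∧ ins x z ∈ cyl ρ 1 e b}, F (ins x z)
        ≤ ∫⁻ _ in {x | x ∈ slab ρ I0 i ∧ ins x z ∈ cyl ρ 1 e b}, gA (sig ρ i) F z :=
          setLIntegral_mono' hsm (fun x hx => hS.le_gA hm hσ (hlt x hx.1) z)
      _ = gA (sig ρ i) F z * volume {x | x ∈ slab ρ I0 i ∧ ins x z ∈ cyl ρ 1 e b} := by
          rw [lintegral_const, Measure.restrict_apply_univ]
      _ ≤ gA (sig ρ i) F z * ENNReal.ofReal (8 * ρ * min (1 / ‖tl e‖) (sig ρ i / ρ)) := by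
          gcongr
          exact volume_fibre hρ0 hρ1 hσ he he' hR z
      _ = _ := mul_comm _ _

theorem Rad3.gA {m : ℕ} (hm : 2 ≤ m) {σ : ℝ} {F G : E (m + 2) → ℝ≥0∞} (h : Rad3 F G) :
    Rad3 (gA σ F) (gA σ G) := by
  intro x y t ht1 ht2 h1 h2
  apply lintegral_mono
  intro w
  apply h _ _ t ht1 ht2
  · intro i
    refine Fin.cases ?_ (fun j => ?_) i
    · intro _; rw [ins_apply_zero, ins_apply_zero]
    · intro hj
      rw [ins_apply_succ, ins_apply_succ]
      apply h1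
      simp only [Fin.val_succ] at hj
      omega
  · intro i
    refine Fin.cases ?_ (fun j => ?_) i
    · intro hj
      simp only [Fin.val_zero] at hj
      omega
    · intro hj
      rw [ins_apply_succ, ins_apply_succ]
      apply h2
      simp only [Fin.val_succ] at hj
      omega

/-- The pointwise estimate. -/
theorem point_sum3 {m : ℕ} (hm : 2 ≤ m) {ρ : ℝ} (hρ0 : 0 < ρ) (hρ1 : ρ ≤ 1) {I0 : ℕ}
    (hI0 : 1 ≤ 2 ^ I0 * ρ) {F : E (m + 2) → ℝ≥0∞} (hF : Measurable F) (hS : Solid3 F)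
    {e b : E (m + 2)} (he : ‖e‖ = 1) (he' : tl e ≠ 0) (he0 : e 0 ≠ 0)
    {M : ℕ → E (m + 1) → ℝ≥0∞}
    (hM : ∀ i, ∀ ω c : E (m + 1), ‖ω‖ = 1 → ((ENNReal.ofReal ρ ^ m)⁻¹ * ∫⁻ y in cyl ρ 1 ω c,
      gA (sig ρ i) F y ^ (((m:ℝ) + 2) / (m + 1))) ^ (m + 1) ≤ M i ω) :
    ((ENNReal.ofReal ρ ^ (m + 1))⁻¹ * ∫⁻ y in cyl ρ 1 e b, F y) ^ (m + 2) ≤
      ((I0 + 2 : ℕ) : ℝ≥0∞) ^ (m + 1) * ∑ i ∈ Finset.range (I0 + 2),
        cS m * ENNReal.ofReal (Kr m ρ (sig ρ i) ‖tl e‖ (e 0)) * M i (‖tl e‖⁻¹ • tl e) := by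
  have hr0 : 0 < ‖tl e‖ := norm_pos_iff.2 he'
  have hω1 : ‖‖tl e‖⁻¹ • tl e‖ = 1 := by
    rw [norm_smul, norm_inv, norm_norm, inv_mul_cancel₀ hr0.ne']
  have hTm : MeasurableSet (cyl ρ 1 e b) := (isClosed_cyl ρ 1 e b).measurableSet
  have hsm : ∀ i, MeasurableSet (cyl ρ 1 e b ∩ {y | y 0 ∈ slab ρ I0 i}) := fun i =>
    hTm.inter (measurable_apply 0 (measurableSet_slab ρ I0 i))
  have h1 : ∫⁻ y in cyl ρ 1 e b, F y ≤ ∑ i ∈ Finset.range (I0 + 2),
      ∫⁻ y in cyl ρ 1 e b ∩ {y | y 0 ∈ slab ρ I0 i}, F y := by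
    rw [← lintegral_indicator hTm]
    simp_rw [← lintegral_indicator (hsm _)]
    rw [← lintegral_finsetSum _ (fun i _ => hF.indicator (hsm i))]
    apply lintegral_mono
    intro y
    by_cases hy : y ∈ cyl ρ 1 e b
    · obtain ⟨i, hi, hyi⟩ := slab_cover (ρ := ρ) I0 (y 0)
      have hmem : y ∈ cyl ρ 1 e b ∩ {y | y 0 ∈ slab ρ I0 i} := ⟨hy, hyi⟩
      rw [indicator_of_mem hy]
      calc F y = (cyl ρ 1 e b ∩ {y | y 0 ∈ slab ρ I0 i}).indicator F y :=
            (indicator_of_mem hmem _).symm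
        _ ≤ _ := Finset.single_le_sum (f := fun i =>
            (cyl ρ 1 e b ∩ {y | y 0 ∈ slab ρ I0 i}).indicator F y) (fun _ _ => zero_le) hi
    · rw [indicator_of_notMem hy]; exact zero_le
  calc ((ENNReal.ofReal ρ ^ (m + 1))⁻¹ * ∫⁻ y in cyl ρ 1 e b, F y) ^ (m + 2)
      ≤ (∑ i ∈ Finset.range (I0 + 2), (ENNReal.ofReal ρ ^ (m + 1))⁻¹ *
          ∫⁻ y in cyl ρ 1 e b ∩ {y | y 0 ∈ slab ρ I0 i}, F y) ^ (m + 2) := by
        rw [← Finset.mul_sum]
        gcongr
    _ ≤ ((Finset.range (I0 + 2)).card : ℝ≥0∞) ^ (m + 2 - 1) * ∑ i ∈ Finset.range (I0 + 2),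
          ((ENNReal.ofReal ρ ^ (m + 1))⁻¹ *
          ∫⁻ y in cyl ρ 1 e b ∩ {y | y 0 ∈ slab ρ I0 i}, F y) ^ (m + 2) :=
        sum_pow_le _ _ (by omega)
    _ ≤ _ := by
        rw [Finset.card_range]
        have e1 : m + 2 - 1 = m + 1 := by omega
        rw [e1]
        gcongr with i hi
        obtain ⟨hR, hfib⟩ := fib_bound3 hm hρ0 hρ1 hI0 hF hS he he' hi
        exact piece hρ0 hρ1 (le_sig hρ0 i) hF he he' he0 (measurableSet_slab ρ I0 i) hR
          (measurable_gA (hρ0.trans_le (le_sig hρ0 i)) hF) hfib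
          (fun c => hM i _ c hω1)

/-- The induction step. -/
theorem step3 {m : ℕ} (hm : 2 ≤ m) {ρ : ℝ} (hρ0 : 0 < ρ) (hρ1 : ρ ≤ 1) {I0 : ℕ}
    (hI0 : 1 ≤ 2 ^ I0 * ρ) {A : ℝ≥0∞}
    (hIH : ∀ F' G' : E (m + 1) → ℝ≥0∞, Measurable F' → Measurable G' → Solid3 F' → Rad3 F' G' →
      PM m ρ A F' G')
    {F G : E (m + 2) → ℝ≥0∞} (hF : Measurable F) (hG : Measurable G) (hS : Solid3 F)
    (hR : Rad3 F G) :
    PM (m + 1) ρ (((I0 + 2 : ℕ) : ℝ≥0∞) ^ (m + 2) * (cS m * (A *
      ENNReal.ofReal (100 * (1 + Real.log (1 / ρ)))))) F G := by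
  have hσ : ∀ i, 0 < sig ρ i := fun i => hρ0.trans_le (le_sig hρ0 i)
  have hP : ∀ i : ℕ, PM m ρ A (fun z => gA (sig ρ i) F z ^ (((m:ℝ) + 2) / (m + 1)))
      (fun z => gA (sig ρ i) G z ^ (((m:ℝ) + 2) / (m + 1))) := by
    intro i
    apply hIH
    · exact (measurable_gA (hσ i) hF).pow_const _
    · exact (measurable_gA (hσ i) hG).pow_const _
    · intro x y h1 h2
      apply ENNReal.rpow_le_rpow (hS.gA x y h1 h2) (by positivity)
    · intro x y t h1 h2 h3 h4
      apply ENNReal.rpow_le_rpow (hR.gA hm x y t h1 h2 h3 h4) (by positivity)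
  choose M hMm hMle hMint using hP
  have hlog : 0 ≤ Real.log (1 / ρ) := Real.log_nonneg (by rw [le_div_iff₀ hρ0]; linarith)
  set N : ℝ≥0∞ := ((I0 + 2 : ℕ) : ℝ≥0∞) with hN
  set Q : E (m + 2) → ℝ≥0∞ := fun e => N ^ (m + 1) * ∑ i ∈ Finset.range (I0 + 2),
        cS m * ENNReal.ofReal (Kr m ρ (sig ρ i) ‖tl e‖ (e 0)) * M i (‖tl e‖⁻¹ • tl e) with hQ
  have hQm : Measurable Q := by
    apply Measurable.const_mul
    apply Finset.measurable_sum
    intro i _
    apply Measurable.mul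
    · apply Measurable.const_mul
      apply ENNReal.measurable_ofReal.comp
      exact (measurable_Kr m ρ (sig ρ i)).comp (measurable_tl.norm.prodMk (measurable_apply 0))
    · exact (hMm i).comp (measurable_tl.norm.inv.smul measurable_tl)
  set S0 : Set (E (m + 2)) := {e | tl e = 0 ∨ e 0 = 0} with hS0
  have hS0m : MeasurableSet S0 := by
    apply MeasurableSet.union
    · exact measurable_tl (measurableSet_singleton 0)
    · exact measurable_apply 0 (measurableSet_singleton 0)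
  refine ⟨fun e => Q e + S0.indicator (fun _ => ∞) e,
    hQm.add (measurable_const.indicator hS0m), ?_, ?_⟩
  · intro e b he
    change _ ≤ Q e + S0.indicator (fun _ => ∞) e
    by_cases h0 : e ∈ S0
    · rw [indicator_of_mem h0]; simp
    · have h1 : tl e ≠ 0 := fun h => h0 (Or.inl h)
      have h2 : e 0 ≠ 0 := fun h => h0 (Or.inr h)
      rw [indicator_of_notMem h0, add_zero]
      exact point_sum3 hm hρ0 hρ1 hI0 hF hS he h1 h2 (fun i ω c hω => hMle i ω c hω)
  · set I := ∫⁻ y, G y ^ (m + 2) with hI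
    refine (slice m (hQm.add (measurable_const.indicator hS0m))).trans ?_
    have hne : ∀ᵐ z : E (m + 1), z ≠ 0 := by
      rw [ae_iff]
      simp
    have hneτ : ∀ᵐ τ : ℝ, τ ≠ 0 := by
      rw [ae_iff]
      simp
    have hinner : ∀ᵐ τ : ℝ, ENNReal.ofReal (rr τ ^ (m + 2)) *
        ∫⁻ u in closedBall (0 : E (m + 1)) 1, (Q (rr τ • ins τ (‖u‖⁻¹ • u)) +
          S0.indicator (fun _ => ∞) (rr τ • ins τ (‖u‖⁻¹ • u))) ≤
        ∑ i ∈ Finset.range (I0 + 2), (N ^ (m + 1) * (cS m * (A * ((ENNReal.ofReal (2 * sig ρ i))⁻¹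
          * I)))) * (ENNReal.ofReal (rr τ ^ (m + 2)) *
            ENNReal.ofReal (Kr m ρ (sig ρ i) (rr τ) (rr τ * τ))) := by
      filter_upwards [hneτ] with τ hτ
      have hr := rr_pos τ
      have h1 : ∫⁻ u in closedBall (0 : E (m + 1)) 1, (Q (rr τ • ins τ (‖u‖⁻¹ • u)) +
          S0.indicator (fun _ => ∞) (rr τ • ins τ (‖u‖⁻¹ • u))) =
          ∫⁻ u in closedBall (0 : E (m + 1)) 1, ∑ i ∈ Finset.range (I0 + 2), (N ^ (m + 1) *
            (cS m * ENNReal.ofReal (Kr m ρ (sig ρ i) (rr τ) (rr τ * τ)))) *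
              M i (‖u‖⁻¹ • u) := by
        apply lintegral_congr_ae
        filter_upwards [ae_restrict_of_ae hne] with u hu
        have hu0 : 0 < ‖u‖ := norm_pos_iff.2 hu
        have e1 : tl (rr τ • ins τ (‖u‖⁻¹ • u)) = rr τ • (‖u‖⁻¹ • u) := by
          rw [tl_smul, tl_ins]
        have e2 : (rr τ • ins τ (‖u‖⁻¹ • u)) 0 = rr τ * τ := by
          rw [PiLp.smul_apply, ins_apply_zero, smul_eq_mul]
        have e3 : ‖‖u‖⁻¹ • u‖ = 1 := by
          rw [norm_smul, norm_inv, norm_norm, inv_mul_cancel₀ hu0.ne']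
        have e4 : ‖tl (rr τ • ins τ (‖u‖⁻¹ • u))‖ = rr τ := by
          rw [e1, norm_smul, e3, mul_one, Real.norm_of_nonneg hr.le]
        have e5 : rr τ • ins τ (‖u‖⁻¹ • u) ∉ S0 := by
          rintro (h | h)
          · have := e4
            rw [h, norm_zero] at this
            exact hr.ne this
          · rw [e2] at h
            exact (mul_ne_zero hr.ne' hτ) h
        rw [indicator_of_notMem e5, add_zero, hQ]
        simp only
        rw [e4, e2, e1, smul_smul, inv_mul_cancel₀ hr.ne', one_smul, Finset.mul_sum]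
        apply Finset.sum_congr rfl
        intro i _
        ring
      have hmd : Measurable (fun u : E (m + 1) => ‖u‖⁻¹ • u) :=
        measurable_norm.inv.smul measurable_id
      have hmi : ∀ i ∈ Finset.range (I0 + 2), Measurable (fun u : E (m + 1) => (N ^ (m + 1) *
            (cS m * ENNReal.ofReal (Kr m ρ (sig ρ i) (rr τ) (rr τ * τ)))) *
              M i (‖u‖⁻¹ • u)) := fun i _ => ((hMm i).comp hmd).const_mul _
      rw [h1, lintegral_finsetSum _ hmi, Finset.mul_sum]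
      apply Finset.sum_le_sum
      intro i _
      have h2 : ∫⁻ u in closedBall (0 : E (m + 1)) 1, M i (‖u‖⁻¹ • u) ≤
          A * ((ENNReal.ofReal (2 * sig ρ i))⁻¹ * I) := by
        refine (hMint i).trans ?_
        gcongr
        exact lintegral_gA_pow (hσ i) hG
      have hMd : Measurable (fun u : E (m + 1) => M i (‖u‖⁻¹ • u)) := (hMm i).comp hmd
      rw [lintegral_const_mul _ hMd]
      calc ENNReal.ofReal (rr τ ^ (m + 2)) * (N ^ (m + 1) *
            (cS m * ENNReal.ofReal (Kr m ρ (sig ρ i) (rr τ) (rr τ * τ))) *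
            ∫⁻ u in closedBall (0 : E (m + 1)) 1, M i (‖u‖⁻¹ • u))
          ≤ ENNReal.ofReal (rr τ ^ (m + 2)) * (N ^ (m + 1) *
            (cS m * ENNReal.ofReal (Kr m ρ (sig ρ i) (rr τ) (rr τ * τ))) *
            (A * ((ENNReal.ofReal (2 * sig ρ i))⁻¹ * I))) := by gcongr
        _ = _ := by ring
    refine (lintegral_mono_ae hinner).trans ?_
    have hmτ : ∀ i : ℕ, Measurable (fun τ : ℝ => ENNReal.ofReal (rr τ ^ (m + 2)) *
            ENNReal.ofReal (Kr m ρ (sig ρ i) (rr τ) (rr τ * τ))) := by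
      intro i
      have h7 : Measurable (fun τ : ℝ => ENNReal.ofReal (rr τ ^ (m + 2))) :=
        ENNReal.measurable_ofReal.comp (measurable_rr.pow_const _)
      have h8 : Measurable (fun τ : ℝ => (rr τ, rr τ * τ)) :=
        measurable_rr.prodMk (measurable_rr.mul measurable_id)
      have h9 : Measurable (fun τ : ℝ => ENNReal.ofReal (Kr m ρ (sig ρ i) (rr τ) (rr τ * τ))) :=
        ENNReal.measurable_ofReal.comp ((measurable_Kr m ρ (sig ρ i)).comp h8)
      exact h7.mul h9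
    rw [lintegral_finsetSum _ (fun i _ => (hmτ i).const_mul _)]
    calc ∑ i ∈ Finset.range (I0 + 2), ∫⁻ τ : ℝ, (N ^ (m + 1) * (cS m * (A *
          ((ENNReal.ofReal (2 * sig ρ i))⁻¹ * I)))) * (ENNReal.ofReal (rr τ ^ (m + 2)) *
            ENNReal.ofReal (Kr m ρ (sig ρ i) (rr τ) (rr τ * τ)))
        ≤ ∑ i ∈ Finset.range (I0 + 2), N ^ (m + 1) * (cS m * (A *
            ENNReal.ofReal (100 * (1 + Real.log (1 / ρ))) * I)) := by
          apply Finset.sum_le_sum
          intro i _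
          rw [lintegral_const_mul _ (hmτ i)]
          have h3 := tau_int m hρ0 hρ1 (le_sig hρ0 i)
          have h4 : (ENNReal.ofReal (2 * sig ρ i))⁻¹ *
              ENNReal.ofReal (200 * sig ρ i * (1 + Real.log (1 / ρ))) =
              ENNReal.ofReal (100 * (1 + Real.log (1 / ρ))) := by
            have e6 : 200 * sig ρ i * (1 + Real.log (1 / ρ)) =
                (2 * sig ρ i) * (100 * (1 + Real.log (1 / ρ))) := by ring
            have h5 := hσ i
            rw [e6, ENNReal.ofReal_mul (p := 2 * sig ρ i) (by positivity), ← mul_assoc,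
              ENNReal.inv_mul_cancel
              (by simpa using h5) ENNReal.ofReal_ne_top, one_mul]
          calc (N ^ (m + 1) * (cS m * (A * ((ENNReal.ofReal (2 * sig ρ i))⁻¹ * I)))) *
                ∫⁻ τ : ℝ, ENNReal.ofReal (rr τ ^ (m + 2)) *
                  ENNReal.ofReal (Kr m ρ (sig ρ i) (rr τ) (rr τ * τ))
              ≤ (N ^ (m + 1) * (cS m * (A * ((ENNReal.ofReal (2 * sig ρ i))⁻¹ * I)))) *
                ENNReal.ofReal (200 * sig ρ i * (1 + Real.log (1 / ρ))) := by gcongr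
            _ = N ^ (m + 1) * (cS m * (A * ((ENNReal.ofReal (2 * sig ρ i))⁻¹ *
                ENNReal.ofReal (200 * sig ρ i * (1 + Real.log (1 / ρ)))) * I)) := by ring
            _ = _ := by rw [h4]
      _ = _ := by
          rw [Finset.sum_const, Finset.card_range, nsmul_eq_mul, ← hN]
          ring

theorem rad_all (m : ℕ) (hm : 2 ≤ m) : ∃ C : ℝ, 0 < C ∧ ∀ ρ : ℝ, 0 < ρ → ρ ≤ 1 →
    ∀ F G : E (m + 1) → ℝ≥0∞, Measurable F → Measurable G → Solid3 F → Rad3 F G →
      PM m ρ (ENNReal.ofReal (C * (1 + Real.log (1 / ρ)) ^ ((m + 1) ^ 2))) F G := by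
  induction m, hm using Nat.le_induction with
  | base =>
    obtain ⟨D, hD, h⟩ := base3
    refine ⟨D, hD, ?_⟩
    intro ρ hρ hρ1 F G hF hG _ hR
    have hlog : 0 ≤ Real.log (1 / ρ) := Real.log_nonneg (by rw [le_div_iff₀ hρ]; linarith)
    have hR' : RadE F G := by
      intro x t ht
      apply hR _ _ t ht.1 ht.2
      · intro i hi
        exfalso
        omega
      · intro i _
        simp
    obtain ⟨M, hM1, hM2, hM3⟩ := h ρ hρ hρ1 F G hF hG hR'
    refine ⟨M, hM1, hM2, hM3.trans ?_⟩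
    gcongr
    · linarith
    · norm_num
  | succ m hm ih =>
    obtain ⟨C, hC, h⟩ := ih
    set c := (cS m).toReal with hc
    refine ⟨3 ^ (m + 2) * ((c + 1) * (C * 100)), by positivity, ?_⟩
    intro ρ hρ hρ1 F G hF hG hS hR
    have hlog : 0 ≤ Real.log (1 / ρ) := Real.log_nonneg (by rw [le_div_iff₀ hρ]; linarith)
    set L : ℝ := 1 + Real.log (1 / ρ) with hL
    have hL1 : 1 ≤ L := by linarith
    obtain ⟨I0, hI0, hN⟩ := exists_I0 hρ hρ1
    obtain ⟨M, hM1, hM2, hM3⟩ := step3 hm hρ hρ1 hI0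
      (fun F' G' a1 a2 a3 a4 => h ρ hρ hρ1 F' G' a1 a2 a3 a4) hF hG hS hR
    refine ⟨M, hM1, hM2, hM3.trans ?_⟩
    refine mul_le_mul' ?_ le_rfl
    have e1 : ((I0 + 2 : ℕ) : ℝ≥0∞) ≤ ENNReal.ofReal (3 * L) := by
      rw [← ENNReal.ofReal_natCast]
      exact ENNReal.ofReal_le_ofReal hN
    have e2 : cS m ≤ ENNReal.ofReal (c + 1) := by
      calc cS m = ENNReal.ofReal c := (ENNReal.ofReal_toReal (cS_ne_top m)).symm
        _ ≤ _ := ENNReal.ofReal_le_ofReal (by linarith)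
    calc ((I0 + 2 : ℕ) : ℝ≥0∞) ^ (m + 2) * (cS m * (ENNReal.ofReal (C * L ^ ((m + 1) ^ 2)) *
          ENNReal.ofReal (100 * L)))
        ≤ (ENNReal.ofReal (3 * L)) ^ (m + 2) * (ENNReal.ofReal (c + 1) *
          (ENNReal.ofReal (C * L ^ ((m + 1) ^ 2)) * ENNReal.ofReal (100 * L))) := by gcongr
      _ = ENNReal.ofReal ((3 * L) ^ (m + 2) * ((c + 1) * ((C * L ^ ((m + 1) ^ 2)) *
            (100 * L)))) := by
          rw [← ENNReal.ofReal_pow (by positivity), ← ENNReal.ofReal_mul (by positivity),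
            ← ENNReal.ofReal_mul (by positivity), ← ENNReal.ofReal_mul (by positivity)]
      _ ≤ _ := by
          apply ENNReal.ofReal_le_ofReal
          have e3 : (3 * L) ^ (m + 2) * ((c + 1) * ((C * L ^ ((m + 1) ^ 2)) * (100 * L))) =
              3 ^ (m + 2) * ((c + 1) * (C * 100)) * L ^ ((m + 1) ^ 2 + (m + 3)) := by
            rw [mul_pow, pow_add L ((m + 1) ^ 2) (m + 3), show m + 3 = (m + 2) + 1 from rfl,
              pow_succ L (m + 2)]
            ring
          rw [e3]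
          gcongr
          nlinarith

end Pool.Agent.TH970.Kr
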